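import Mathlib
import Pool.Agent.N978.HP.Stm
import Pool.Agent.N978.HP.Base

/-!
# Tuples of rational points of the projective line: statements
-/

set_option autoImplicit false

namespace Pool.Agent.N978.TP

open Filter Topology Pool.Agent.N978.HP

/-- The property `B` holds for 100 percent of the families `(t a)` (`a` in the finite set `A`) of
rational points of the projective line, ordered by the maximum of the heights of the `t a`. -/
def AlmostAllTuples {A : Type} (B : (A → Pt) → Prop) : Prop :=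
  Tendsto (fun H : ℕ => (Nat.card {t : A → Pt // (∀ a, (t a).height ≤ H) ∧ ¬ B t} : ℝ) /
    (Nat.card {t : A → Pt // ∀ a, (t a).height ≤ H} : ℝ)) atTop (𝓝 0)

/-- **T1**: a property of one coordinate. -/
def S_T1 : Prop := ∀ (A : Type) [Fintype A] (a : A) (B : Pt → Prop), AlmostAll B →
  AlmostAllTuples fun t : A → Pt => B (t a)

/-- **T2**: two properties. -/
def S_T2 : Prop := ∀ (A : Type) [Fintype A] (B B' : (A → Pt) → Prop), AlmostAllTuples B →
  AlmostAllTuples B' → AlmostAllTuples fun t => B t ∧ B' t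

/-- **CN** (count): the proportion of the points of height at most `H` at which a binary form is
divisible by a large prime `p` is at most `C (1 / p + 1 / H)`. -/
def S_CN : Prop := ∀ D : MvPolynomial (Fin 2) ℤ, (∃ d, D.IsHomogeneous d) → (∃ t, InU D t) →
  ∃ (C : ℝ) (P₀ : ℕ), ∀ p H : ℕ, p.Prime → P₀ ≤ p → 0 < H →
    (Nat.card {t : Pt // t.height ≤ H ∧ (p : ℤ) ∣ t.val D} : ℝ) ≤
      C * (1 / (p : ℝ) + 1 / (H : ℝ)) * (Nat.card {t : Pt // t.height ≤ H} : ℝ)

/-- **T3**: if, for every `P₀`, 100 percent of the points `t` have `k` primes `p ≥ P₀` with the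
property `B p t`, then for 100 percent of the tuples there are `k` primes `p` with the property
`B p (t a)` such that the other `t b` are in `U b` modulo `p`. -/
def S_T3 : Prop := ∀ (A : Type) [Fintype A] [DecidableEq A] (a : A)
  (D : A → MvPolynomial (Fin 2) ℤ), (∀ b, ∃ d, (D b).IsHomogeneous d) → (∀ b, ∃ t, InU (D b) t) →
  ∀ (k : ℕ) (B : ℕ → Pt → Prop),
    (∀ P₀ : ℕ, AlmostAll fun t => ∃ F : Finset ℕ, k ≤ F.card ∧
      ∀ p ∈ F, p.Prime ∧ P₀ ≤ p ∧ B p t) →
    AlmostAllTuples fun t : A → Pt => ∃ F : Finset ℕ, k ≤ F.card ∧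
      ∀ p ∈ F, p.Prime ∧ B p (t a) ∧ ∀ b, b ≠ a → ¬ (p : ℤ) ∣ (t b).val (D b)

end Pool.Agent.N978.TP
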