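import Mathlib
import Pool.Agent.N978.TP.Stm
import Pool.Agent.N592.HP.SV

/-!
# CN: points of the projective line at which a polynomial is divisible by a large prime

(helper595, for project TP of helper978). By the lemma of Schwartz and Zippel.
-/

set_option autoImplicit false

namespace Pool.Agent.N978.TP

open Filter Topology Pool.Agent.N978.HP

namespace CN

open Finset Pool.Agent.N592.HP

lemma map_ne {D : MvPolynomial (Fin 2) ℤ} (hD : D ≠ 0) : ∃ P₀ : ℕ, ∀ p : ℕ, p.Prime → P₀ ≤ p →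
    MvPolynomial.map (Int.castRingHom (ZMod p)) D ≠ 0 := by
  obtain ⟨m, hm⟩ := MvPolynomial.ne_zero_iff.1 hD
  refine ⟨(MvPolynomial.coeff m D).natAbs + 1, fun p hp hP h => ?_⟩
  have h1 := congrArg (MvPolynomial.coeff m) h
  rw [MvPolynomial.coeff_map, MvPolynomial.coeff_zero] at h1
  have h2 : (p : ℤ) ∣ MvPolynomial.coeff m D := (ZMod.intCast_zmod_eq_zero_iff_dvd _ p).1 h1
  have h3 := Int.natAbs_dvd_natAbs.2 h2
  rw [Int.natAbs_natCast] at h3
  have h4 := Nat.le_of_dvd (Int.natAbs_pos.2 hm) h3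
  omega

lemma deg_map (D : MvPolynomial (Fin 2) ℤ) (p : ℕ) :
    (MvPolynomial.map (Int.castRingHom (ZMod p)) D).totalDegree ≤ D.totalDegree :=
  Finset.sup_mono (MvPolynomial.support_map_subset _ _)

lemma val_mod (D : MvPolynomial (Fin 2) ℤ) (p : ℕ) (t : Pt) : (p : ℤ) ∣ t.val D ↔
    MvPolynomial.eval ![((t.a : ℤ) : ZMod p), ((t.b : ℤ) : ZMod p)]
      (MvPolynomial.map (Int.castRingHom (ZMod p)) D) = 0 := by
  rw [MvPolynomial.eval_map, ← ZMod.intCast_zmod_eq_zero_iff_dvd]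
  unfold Pt.val
  have h := MvPolynomial.eval₂_comp_left (Int.castRingHom (ZMod p)) (RingHom.id ℤ) ![t.a, t.b] D
  rw [MvPolynomial.eval₂_id, RingHom.comp_id] at h
  have e : (⇑(Int.castRingHom (ZMod p)) ∘ ![t.a, t.b]) =
      ![((t.a : ℤ) : ZMod p), ((t.b : ℤ) : ZMod p)] := by
    funext i
    fin_cases i <;> rfl
  rw [e] at h
  rw [← h]
  rfl

open Classical in
lemma count {p : ℕ} [hp : Fact p.Prime] (H : ℕ) (Dp : MvPolynomial (Fin 2) (ZMod p))
    (h0 : Dp ≠ 0) :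
    (((Icc (-(H : ℤ)) H) ×ˢ (Icc (-(H : ℤ)) H)).filter (fun x : ℤ × ℤ =>
      MvPolynomial.eval ![((x.1 : ℤ) : ZMod p), ((x.2 : ℤ) : ZMod p)] Dp = 0)).card ≤
      (2 * H / p + 1) ^ 2 * (Dp.totalDegree * min (2 * H + 1) p) := by
  have hne : NeZero p := ⟨hp.out.ne_zero⟩
  set S : Finset (ZMod p) := (Icc (-(H : ℤ)) H).image (fun a : ℤ => (a : ZMod p)) with hS
  have hS1 : S.card ≤ 2 * H + 1 := by
    refine card_image_le.trans ?_
    rw [Int.card_Icc]
    omega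
  have hS2 : S.card ≤ p := by
    have := S.card_le_univ
    rwa [ZMod.card] at this
  have hSne : S.Nonempty := by
    refine Finset.Nonempty.image ⟨0, ?_⟩ _
    rw [mem_Icc]
    omega
  have hSpos : 0 < S.card := hSne.card_pos
  set N : Finset (Fin 2 → ZMod p) :=
    (Fintype.piFinset fun _ : Fin 2 => S).filter (fun f => MvPolynomial.eval f Dp = 0) with hN
  have hSZ : N.card ≤ Dp.totalDegree * S.card := by
    have h1 := MvPolynomial.schwartz_zippel_totalDegree h0 S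
    have hq : (0 : ℚ≥0) < (S.card : ℚ≥0) := by exact_mod_cast hSpos
    rw [div_le_div_iff₀ (pow_pos hq 2) hq] at h1
    have h2 : N.card * S.card ≤ Dp.totalDegree * S.card ^ 2 := by exact_mod_cast h1
    have h3 : N.card * S.card ≤ (Dp.totalDegree * S.card) * S.card := by
      rw [mul_assoc, ← sq]; exact h2
    exact Nat.le_of_mul_le_mul_right h3 hSpos
  set Z := ((Icc (-(H : ℤ)) H) ×ˢ (Icc (-(H : ℤ)) H)).filter (fun x : ℤ × ℤ =>
      MvPolynomial.eval ![((x.1 : ℤ) : ZMod p), ((x.2 : ℤ) : ZMod p)] Dp = 0) with hZ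
  have hmaps : ∀ x ∈ Z, (![((x.1 : ℤ) : ZMod p), ((x.2 : ℤ) : ZMod p)] : Fin 2 → ZMod p) ∈ N := by
    intro x hx
    rw [hZ, mem_filter, mem_product] at hx
    rw [hN, mem_filter, Fintype.mem_piFinset]
    refine ⟨fun i => ?_, hx.2⟩
    fin_cases i
    · exact mem_image_of_mem _ hx.1.1
    · exact mem_image_of_mem _ hx.1.2
  have hfib : ∀ y ∈ N, (Z.filter (fun x : ℤ × ℤ =>
      (![((x.1 : ℤ) : ZMod p), ((x.2 : ℤ) : ZMod p)] : Fin 2 → ZMod p) = y)).card ≤
      (2 * H / p + 1) ^ 2 := by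
    intro y _
    have hsub : Z.filter (fun x : ℤ × ℤ =>
        (![((x.1 : ℤ) : ZMod p), ((x.2 : ℤ) : ZMod p)] : Fin 2 → ZMod p) = y) ⊆
        ((Icc (-(H : ℤ)) H).filter (fun a => (p : ℤ) ∣ a - ((y 0).val : ℤ))) ×ˢ
        ((Icc (-(H : ℤ)) H).filter (fun a => (p : ℤ) ∣ a - ((y 1).val : ℤ))) := by
      intro x hx
      rw [mem_filter, hZ, mem_filter, mem_product] at hx
      obtain ⟨⟨⟨h1, h2⟩, -⟩, h3⟩ := hx
      have key : ∀ (a : ℤ) (z : ZMod p), (a : ZMod p) = z → (p : ℤ) ∣ a - (z.val : ℤ) := by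
        intro a z h
        rw [← ZMod.intCast_zmod_eq_zero_iff_dvd]
        push_cast
        rw [ZMod.natCast_zmod_val, h, sub_self]
      rw [mem_product, mem_filter, mem_filter]
      exact ⟨⟨h1, key _ _ (congrFun h3 0)⟩, ⟨h2, key _ _ (congrFun h3 1)⟩⟩
    refine (card_le_card hsub).trans ?_
    rw [card_product, sq]
    exact Nat.mul_le_mul (card_residue H p hp.out.one_le _) (card_residue H p hp.out.one_le _)
  have h5 := card_le_mul_card_image_of_maps_to hmaps _ hfib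
  refine h5.trans (Nat.mul_le_mul le_rfl (hSZ.trans (Nat.mul_le_mul le_rfl ?_)))
  exact le_min hS1 hS2

lemma bound {p H T : ℕ} (hp : p.Prime) (hH : 0 < H) :
    (((2 * H / p + 1) ^ 2 * (T * min (2 * H + 1) p) : ℕ) : ℝ) ≤
      32 * T * (H : ℝ) ^ 2 * (1 / (p : ℝ) + 1 / (H : ℝ)) := by
  have hpR : (0 : ℝ) < p := by exact_mod_cast hp.pos
  have hHR : (1 : ℝ) ≤ H := by exact_mod_cast hH
  have hT : (0 : ℝ) ≤ T := Nat.cast_nonneg _
  rcases lt_or_ge (2 * H) p with h | h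
  · rw [Nat.div_eq_of_lt h]
    have h1 : min (2 * H + 1) p ≤ 3 * H := (min_le_left _ _).trans (by omega)
    have h2 : ((min (2 * H + 1) p : ℕ) : ℝ) ≤ 3 * H := by exact_mod_cast h1
    have h3 : (((0 + 1) ^ 2 * (T * min (2 * H + 1) p) : ℕ) : ℝ) = T * ((min (2 * H + 1) p : ℕ) : ℝ) := by
      push_cast; ring
    rw [h3]
    calc (T : ℝ) * ((min (2 * H + 1) p : ℕ) : ℝ) ≤ T * (3 * H) :=
          mul_le_mul_of_nonneg_left h2 hT
      _ ≤ 32 * T * H := by nlinarith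
      _ = 32 * T * (H : ℝ) ^ 2 * (1 / (H : ℝ)) := by field_simp
      _ ≤ _ := by
          refine mul_le_mul_of_nonneg_left ?_ (by positivity)
          have : (0 : ℝ) ≤ 1 / (p : ℝ) := by positivity
          linarith
  · have h1 : ((2 * H / p + 1 : ℕ) : ℝ) ≤ 4 * H / p := by
      have h2 : ((2 * H / p : ℕ) : ℝ) ≤ 2 * H / p := by
        refine Nat.cast_div_le.trans ?_
        push_cast
        exact le_rfl
      have h3 : (1 : ℝ) ≤ 2 * H / p := by
        rw [le_div_iff₀ hpR, one_mul]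
        exact_mod_cast h
      have h4 : (4 : ℝ) * H / p = 2 * H / p + 2 * H / p := by ring
      push_cast
      rw [h4]
      linarith
    have h2 : ((min (2 * H + 1) p : ℕ) : ℝ) ≤ p := by exact_mod_cast min_le_right _ _
    have h3 : (((2 * H / p + 1) ^ 2 * (T * min (2 * H + 1) p) : ℕ) : ℝ) =
        ((2 * H / p + 1 : ℕ) : ℝ) ^ 2 * (T * ((min (2 * H + 1) p : ℕ) : ℝ)) := by
      push_cast; ring
    rw [h3]
    calc ((2 * H / p + 1 : ℕ) : ℝ) ^ 2 * (T * ((min (2 * H + 1) p : ℕ) : ℝ)) ≤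
          (4 * H / p) ^ 2 * (T * p) := by gcongr
      _ = 16 * T * (H : ℝ) ^ 2 * (1 / p) := by field_simp; ring
      _ ≤ 32 * T * (H : ℝ) ^ 2 * (1 / p) := by
          refine mul_le_mul_of_nonneg_right ?_ (by positivity)
          nlinarith [mul_nonneg hT (sq_nonneg (H : ℝ))]
      _ ≤ _ := by
          refine mul_le_mul_of_nonneg_left ?_ (by positivity)
          have : (0 : ℝ) ≤ 1 / (H : ℝ) := by positivity
          linarith

end CN

open CN Pool.Agent.N592.HP in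
/-- **CN** -/
theorem cn : S_CN := by
  classical
  rintro D - ⟨t₀, ht₀⟩
  have hD : D ≠ 0 := by
    rintro rfl
    apply ht₀
    unfold Pt.val
    rw [map_zero]
  obtain ⟨P₀, hP₀⟩ := map_ne hD
  refine ⟨128 * D.totalDegree, P₀, fun p H hp hP hH => ?_⟩
  have hpF : Fact p.Prime := ⟨hp⟩
  have h1 : Nat.card {t : Pt // t.height ≤ H ∧ (p : ℤ) ∣ t.val D} ≤
      (((Finset.Icc (-(H : ℤ)) H) ×ˢ (Finset.Icc (-(H : ℤ)) H)).filter (fun x : ℤ × ℤ =>
      MvPolynomial.eval ![((x.1 : ℤ) : ZMod p), ((x.2 : ℤ) : ZMod p)]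
        (MvPolynomial.map (Int.castRingHom (ZMod p)) D) = 0)).card := by
    rw [card_eq, ← Set.ncard_coe_finset]
    refine Set.ncard_le_ncard_of_injOn psi ?_ psi_inj.injOn (Finset.finite_toSet _)
    rintro t ⟨ht1, ht2⟩
    rw [Finset.mem_coe, Finset.mem_filter]
    exact ⟨mem_box ht1, (val_mod D p t).1 ht2⟩
  have h2 := h1.trans (count H _ (hP₀ p hp hP))
  have h3 : (2 * H / p + 1) ^ 2 * ((MvPolynomial.map (Int.castRingHom (ZMod p)) D).totalDegree *
      min (2 * H + 1) p) ≤ (2 * H / p + 1) ^ 2 * (D.totalDegree * min (2 * H + 1) p) :=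
    Nat.mul_le_mul le_rfl (Nat.mul_le_mul (deg_map D p) le_rfl)
  have h4 : (Nat.card {t : Pt // t.height ≤ H ∧ (p : ℤ) ∣ t.val D} : ℝ) ≤
      (((2 * H / p + 1) ^ 2 * (D.totalDegree * min (2 * H + 1) p) : ℕ) : ℝ) := by
    exact_mod_cast h2.trans h3
  refine h4.trans ((bound hp hH).trans ?_)
  have h5 : (H : ℝ) ^ 2 ≤ 4 * (Nat.card {t : Pt // t.height ≤ H} : ℝ) := by
    have h6 := lower H
    rw [card_eq]
    have h7 : (PH H).ncard = ({t : Pt | t.height ≤ H} : Set Pt).ncard := rfl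
    rw [h7] at h6
    linarith
  have h8 : (0 : ℝ) ≤ 1 / (p : ℝ) + 1 / (H : ℝ) := by positivity
  calc 32 * (D.totalDegree : ℝ) * (H : ℝ) ^ 2 * (1 / (p : ℝ) + 1 / (H : ℝ)) ≤
        32 * (D.totalDegree : ℝ) * (4 * (Nat.card {t : Pt // t.height ≤ H} : ℝ)) *
          (1 / (p : ℝ) + 1 / (H : ℝ)) := by gcongr
    _ = _ := by ring

end Pool.Agent.N978.TP
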