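import Mathlib
import Pool.Agent.Y114.TF.Defs

/-!
# Tate classes on the products of the powers of two motives: definitions
-/

set_option autoImplicit false

namespace Pool.Agent.N978.TP

section forms

variable {k : Type} [Field k] {Γ : Type} [Group Γ]

/-- The form `z` in `b` variables on the representation `σ` is a Tate class with character
`κ ^ c`: `z (g y) = κ(g) ^ c z(y)` for `g` in a subgroup of finite index. -/
def IsTateOn {W : Type} [AddCommGroup W] [Module k W] (σ : Representation k Γ W) (κ : Γ →* k)
    (c : ℤ) {b : Type} (z : MultilinearMap k (fun _ : b => W) k) : Prop :=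
  ∃ Δ : Subgroup Γ, Δ.FiniteIndex ∧ ∀ g ∈ Δ, ∀ y, z (fun l => σ g (y l)) = κ g ^ c * z y

/-- The form `f`, with `s` variables in `V` and `b` variables in `W`, is a Tate class with
character `κ ^ c`: `f (g x) (g y) = κ(g) ^ c f(x)(y)` for `g` in a subgroup of finite index. -/
def IsTateForm {V W : Type} [AddCommGroup V] [Module k V] [AddCommGroup W] [Module k W]
    (ρ : Representation k Γ V) (σ : Representation k Γ W) (κ : Γ →* k) (c : ℤ) {s b : Type}
    (f : MultilinearMap k (fun _ : s => V) (MultilinearMap k (fun _ : b => W) k)) : Prop :=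
  ∃ Δ : Subgroup Γ, Δ.FiniteIndex ∧ ∀ g ∈ Δ, ∀ x y,
    f (fun l => ρ g (x l)) (fun l => σ g (y l)) = κ g ^ c * f x y

end forms

section products

variable {k : Type} [Field k] {ι : Type} {V : ι → Type} [∀ i, AddCommGroup (V i)]
  [∀ i, Module k (V i)] {W : Type} [AddCommGroup W] [Module k W] {Γ : Type} [Group Γ]

/-- The form `f`, with `s` variables in the sum `V` of the `V i` and `b` variables in `W`, is the
product of `m` polarizations `ω i` of the `V i`, where the `s = 2 m` variables in `V` are
distributed in some way, and of a Tate class `z` in `b` variables on `W`. If `f` has the character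
`κ ^ c`, then `z` has the character `κ ^ (c + w (u 1) + ... + w (u m))`, as `ω i` has the character
`κ ^ (- w i)`. -/
def IsProduct (ω : ∀ i, V i →ₗ[k] V i →ₗ[k] k) (w : ι → ℕ) (σ : Representation k Γ W)
    (κ : Γ →* k) (c : ℤ) {s b : Type}
    (f : MultilinearMap k (fun _ : s => ∀ i, V i) (MultilinearMap k (fun _ : b => W) k)) : Prop :=
  ∃ (m : ℕ) (e : Fin m × Fin 2 ≃ s) (u : Fin m → ι) (z : MultilinearMap k (fun _ : b => W) k),
    IsTateOn σ κ (c + ∑ l, (w (u l) : ℤ)) z ∧ ∀ x y,
      f x y = (∏ l, ω (u l) (x (e (l, 0)) (u l)) (x (e (l, 1)) (u l))) * z y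

/-- All the Tate classes in `s` variables in the sum `V` of the `V i` and `b` variables in `W`, for
all `s` and `b`, are linear combinations of products of polarizations of the `V i` and Tate classes
in `b` variables on `W`. -/
def TateClassesAreProducts (ρ : ∀ i, Representation k Γ (V i)) (ω : ∀ i, V i →ₗ[k] V i →ₗ[k] k)
    (w : ι → ℕ) (σ : Representation k Γ W) (κ : Γ →* k) : Prop :=
  ∀ (s b : ℕ) (c : ℤ) (f : MultilinearMap k (fun _ : Fin s => ∀ i, V i)
    (MultilinearMap k (fun _ : Fin b => W) k)),
    IsTateForm (Pool.Agent.Y114.TF.sumRep ρ) σ κ c f →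
      f ∈ Submodule.span k {f' | IsProduct ω w σ κ c f'}

end products

end Pool.Agent.N978.TP
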