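import Pool.Agent.N978.HP.MumDefs
import Pool.Agent.N978.TP.Forms
import Pool.Agent.N978.TP.Stm

/-!
# Representations of the Galois group of `ℚ` with small monodromy
-/

set_option autoImplicit false

namespace Pool.Agent.N978.TP

open NumberField IsDedekindDomain Pool.Agent.Y114.GF Pool.Agent.Y114.MU

/-- The `ℓ`-adic cyclotomic character of the Galois group of `ℚ`. -/
noncomputable def cyc (ℓ : ℕ) [Fact ℓ.Prime] : Gal(AlgebraicClosure ℚ/ℚ) →* ℚ_[ℓ] where
  toFun g := ((cyclotomicCharacter (AlgebraicClosure ℚ) ℓ g : ℤ_[ℓ]) : ℚ_[ℓ])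
  map_one' := by
    have h1 : cyclotomicCharacter (AlgebraicClosure ℚ) ℓ
        (AlgEquiv.toRingEquiv (1 : Gal(AlgebraicClosure ℚ/ℚ))) = 1 :=
      map_one (cyclotomicCharacter (AlgebraicClosure ℚ) ℓ)
    rw [h1]
    exact PadicInt.coe_one
  map_mul' g h := by
    have h1 : cyclotomicCharacter (AlgebraicClosure ℚ) ℓ (AlgEquiv.toRingEquiv (g * h)) =
        cyclotomicCharacter (AlgebraicClosure ℚ) ℓ (AlgEquiv.toRingEquiv g) *
          cyclotomicCharacter (AlgebraicClosure ℚ) ℓ (AlgEquiv.toRingEquiv h) :=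
      map_mul (cyclotomicCharacter (AlgebraicClosure ℚ) ℓ) _ _
    rw [h1]
    exact PadicInt.coe_mul _ _

variable {ℓ : ℕ} [Fact ℓ.Prime] {W : Type} [AddCommGroup W] [Module ℚ_[ℓ] W]

/-- The inertia groups at the places not above `ℓ` act quasi-unipotently: a positive power of each
element acts unipotently. By Grothendieck this holds for the cohomology of all varieties. -/
def QuasiUnipotent (σ : Representation ℚ_[ℓ] Gal(AlgebraicClosure ℚ/ℚ) W) : Prop :=
  ∀ v : HeightOneSpectrum (𝓞 ℚ), ¬ Above v ℓ → ∀ Q, PrimeOver Q v → ∀ τ, InInertiaAt Q τ →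
    ∃ e : ℕ, 0 < e ∧ IsNilpotent (σ (τ ^ e) - 1)

/-- A positive power of each element `τ` of the inertia groups at `p` satisfies `(τ - 1) ^ d = 0`.
This holds for `d = b + 1` for the cohomology of degree `b` of all smooth projective varieties
(Grothendieck), and for `d = 1` if `p` is a prime of potentially good reduction. -/
def SmallAt (σ : Representation ℚ_[ℓ] Gal(AlgebraicClosure ℚ/ℚ) W) (p d : ℕ) : Prop :=
  ∀ v : HeightOneSpectrum (𝓞 ℚ), Above v p → ∀ Q, PrimeOver Q v → ∀ τ, InInertiaAt Q τ →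
    ∃ e : ℕ, 0 < e ∧ (σ (τ ^ e) - 1) ^ d = 0

/-- There are at most `K` prime numbers `p ≠ ℓ` at which the representation is not small. -/
def SmallOutside (σ : Representation ℚ_[ℓ] Gal(AlgebraicClosure ℚ/ℚ) W) (d K : ℕ) : Prop :=
  {p : ℕ | p.Prime ∧ p ≠ ℓ ∧ ¬ SmallAt σ p d}.encard ≤ K

end Pool.Agent.N978.TP
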