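import Mathlib
import Pool.Agent.Y114.MU.SumLie
import Pool.Agent.N978.TP.Forms

/-!
# The Lie algebra of the operators which kill the Tate classes on `V ^ s × W ^ b`
-/

set_option autoImplicit false
set_option linter.unusedSectionVars false
set_option linter.unusedVariables false

namespace Pool.Agent.N978.TP

open Module Pool.Agent.H204R3.GP Pool.Agent.H204R3.SP Pool.Agent.Y114.TF Pool.Agent.Y114.MU

section one

variable {k : Type} [Field k] {U : Type} [AddCommGroup U] [Module k U] {Γ : Type} [Group Γ]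
  (ρ : Representation k Γ U) (κ : Γ →* k)

theorem rho_mul_inv (s : Γ) (x : U) : ρ s (ρ s⁻¹ x) = x := by
  rw [← Module.End.mul_apply, ← map_mul, mul_inv_cancel, map_one, Module.End.one_apply]

theorem rho_inv_mul (s : Γ) (x : U) : ρ s⁻¹ (ρ s x) = x := by
  rw [← Module.End.mul_apply, ← map_mul, inv_mul_cancel, map_one, Module.End.one_apply]

/-- The endomorphisms that kill all Tate forms (with all twists). -/
def lieZ : Submodule k (Module.End k U) where
  carrier := {X | ∀ (s : Type) (_ : Fintype s) (_ : DecidableEq s) (c : ℤ)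
    (φ : MultilinearMap k (fun _ : s => U) k), IsTateOn ρ κ c φ → Kills X φ}
  zero_mem' := by
    intro s _ _ c φ _ v
    refine Finset.sum_eq_zero fun j _ => ?_
    rw [LinearMap.zero_apply]
    exact φ.map_coord_zero j (Function.update_self _ _ _)
  add_mem' := by
    intro X Y hX hY s i1 i2 c φ hφ v
    have h1 := hX s i1 i2 c φ hφ v
    have h2 := hY s i1 i2 c φ hφ v
    have h3 := congrArg₂ (fun x y : k => x + y) h1 h2
    simp only [add_zero] at h3
    rw [← h3, ← Finset.sum_add_distrib]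
    refine Finset.sum_congr rfl fun j _ => ?_
    rw [LinearMap.add_apply, MultilinearMap.map_update_add]
  smul_mem' := by
    intro a X hX s i1 i2 c φ hφ v
    have h1 := hX s i1 i2 c φ hφ v
    rw [← mul_zero a, ← h1, Finset.mul_sum]
    refine Finset.sum_congr rfl fun j _ => ?_
    rw [LinearMap.smul_apply, MultilinearMap.map_update_smul, smul_eq_mul]

theorem lieZ_bracket {X Y : Module.End k U} (hX : X ∈ lieZ ρ κ) (hY : Y ∈ lieZ ρ κ) :
    X * Y - Y * X ∈ lieZ ρ κ :=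
  fun s i1 i2 c φ hφ => kills_bracket (hX s i1 i2 c φ hφ) (hY s i1 i2 c φ hφ)

theorem lieZ_conj (g : Γ) {X : Module.End k U} (hX : X ∈ lieZ ρ κ) :
    ρ g * X * ρ g⁻¹ ∈ lieZ ρ κ := by
  intro s i1 i2 c φ hφ
  obtain ⟨Δ, hΔ, hφ⟩ := hφ
  have hφ' : IsTateOn ρ κ c (φ.compLinearMap fun _ => ρ g) := by
    refine ⟨Δ.comap (MulAut.conj g).toMonoidHom, ⟨by
      rw [Subgroup.index_comap_of_surjective _ (MulAut.conj g).surjective]
      exact hΔ.index_ne_zero⟩, fun t ht v => ?_⟩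
    have h1 : g * t * g⁻¹ ∈ Δ := by
      rw [Subgroup.mem_comap] at ht
      exact ht
    have h3 : ∀ j, ρ (g * t * g⁻¹) (ρ g (v j)) = ρ g (ρ t (v j)) := by
      intro j
      rw [map_mul, map_mul, Module.End.mul_apply, Module.End.mul_apply, rho_inv_mul]
    have h4 : κ (g * t * g⁻¹) = κ t := by
      rw [map_mul, map_mul, mul_right_comm, ← map_mul, mul_inv_cancel, map_one, one_mul]
    have h5 := hφ _ h1 (fun j => ρ g (v j))
    simp only [h3, h4] at h5
    exact h5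
  have h1 := hX s i1 i2 c _ hφ'
  intro v
  have h2 := h1 fun j => ρ g⁻¹ (v j)
  rw [← h2]
  refine Finset.sum_congr rfl fun j _ => ?_
  change φ _ = φ _
  congr 1
  funext l
  by_cases h : l = j
  · subst h
    rw [Function.update_self, Function.update_self]
    rfl
  · rw [Function.update_of_ne h, Function.update_of_ne h, rho_mul_inv]

/-- The logarithm of a unipotent element on which the character is trivial is in the Lie algebra. -/
theorem lg_memZ [CharZero k] {τ : Γ} {d : ℕ}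
    (hν : (ρ τ - 1) ^ (d + 2) = 0) (hκ : κ τ = 1) : lgA (d + 2) (ρ τ - 1) 1 ∈ lieZ ρ κ := by
  intro s i1 i2 c φ hφ
  obtain ⟨Δ, hΔ, hφ⟩ := hφ
  obtain ⟨M, hM0, -, hM⟩ := Subgroup.exists_pow_mem_of_index_ne_zero hΔ.index_ne_zero τ
  refine kills_of_fixed φ (lgA (d + 2) (ρ τ - 1)) (d := d + 2) (by omega) (lgA_zero (by omega) _)
    hM0 ?_
  intro t v
  have h1 := lgA_pow hν (M * t)
  rw [add_sub_cancel] at h1
  rw [← h1]
  have h2 := hφ (τ ^ (M * t)) (by
    rw [pow_mul]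
    exact Subgroup.pow_mem _ hM _) v
  rw [map_pow, map_pow, hκ, one_pow, one_zpow, one_mul] at h2
  exact h2

end one

variable {k : Type} [Field k] [CharZero k] {ι : Type} [Fintype ι] [DecidableEq ι]
  {V : ι → Type} [∀ i, AddCommGroup (V i)] [∀ i, Module k (V i)]
  {W : Type} [AddCommGroup W] [Module k W]

/-- Diagonal endomorphisms of `V × W`, as a homomorphism of algebras. -/
noncomputable def dE : ((∀ i, End k (V i)) × End k W) →ₐ[k] End k ((∀ i, V i) × W) :=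
  (LinearMap.prodMapAlgHom k (∀ i, V i) W).comp
    (AlgHom.prodMap (piE (k := k) (V := V)) (AlgHom.id k (End k W)))

theorem dE_apply (x : (∀ i, End k (V i)) × End k W) (u : (∀ i, V i) × W) :
    dE x u = (piE x.1 u.1, x.2 u.2) := rfl

theorem lgA_dE (d : ℕ) (x : (∀ i, End k (V i)) × End k W) (m : ℕ) :
    lgA d (dE x) m = dE ((fun i => lgA d (x.1 i) m), lgA d x.2 m) := by
  have h1 : (((fun i => lgA d (x.1 i) m), lgA d x.2 m) : (∀ i, End k (V i)) × End k W) =
      ∑ j ∈ Finset.range d, (bp k j).coeff m • x ^ j := by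
    refine Prod.ext ?_ ?_
    · funext i
      rw [Prod.fst_sum, Finset.sum_apply]
      rfl
    · rw [Prod.snd_sum]
      rfl
  rw [h1, map_sum]
  unfold lgA
  refine Finset.sum_congr rfl fun j _ => ?_
  rw [map_smul, map_pow]

variable {Γ : Type} [Group Γ] (ρ : ∀ i, Representation k Γ (V i)) (σ : Representation k Γ W)
  (κ : Γ →* k) (ω : ∀ i, V i →ₗ[k] V i →ₗ[k] k) (χ : ι → Γ →* k)

/-- The representation on `V × W`. -/
noncomputable def tot : Representation k Γ ((∀ i, V i) × W) where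
  toFun g := dE (fun i => ρ i g, σ g)
  map_one' := by
    rw [show ((fun i => ρ i 1, σ 1) : (∀ i, End k (V i)) × End k W) = 1 from
      Prod.ext (funext fun i => map_one _) (map_one _), map_one]
  map_mul' g h := by
    rw [← map_mul]
    congr 1
    exact Prod.ext (funext fun i => map_mul _ _ _) (map_mul _ _ _)

theorem tot_eq (g : Γ) : tot ρ σ g = dE (fun i => ρ i g, σ g) := rfl

theorem tot_apply (g : Γ) (u : (∀ i, V i) × W) :
    tot ρ σ g u = (sumRep ρ g u.1, σ g u.2) := rfl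

/-- The pairs of a family of endomorphisms of the `V i`, in the Lie algebras of the `ω i`, and an
endomorphism of `W` which kill all Tate forms. -/
noncomputable def gg : Submodule k ((∀ i, End k (V i)) × End k W) :=
  (lieZ (tot ρ σ) κ).comap (dE (k := k) (V := V) (W := W)).toLinearMap ⊓
    ⨅ i, (SpL (ω i)).comap ((LinearMap.proj i).comp (LinearMap.fst k (∀ i, End k (V i)) (End k W)))

theorem mem_gg (x : (∀ i, End k (V i)) × End k W) :
    x ∈ gg ρ σ κ ω ↔ dE x ∈ lieZ (tot ρ σ) κ ∧ ∀ i, x.1 i ∈ SpL (ω i) := by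
  unfold gg
  rw [Submodule.mem_inf, Submodule.mem_iInf]
  rfl

theorem SpL_bracket {E : Type} [AddCommGroup E] [Module k E] (ψ : E →ₗ[k] E →ₗ[k] k)
    {X Y : End k E} (hX : X ∈ SpL ψ) (hY : Y ∈ SpL ψ) : X * Y - Y * X ∈ SpL ψ := by
  intro u w
  have h1 := hX (Y u) w
  have h2 := hX u (Y w)
  have h3 := hY (X u) w
  have h4 := hY u (X w)
  simp only [LinearMap.sub_apply, Module.End.mul_apply, map_sub]
  linear_combination h1 + h2 - h3 - h4

theorem SpL_conj {E : Type} [AddCommGroup E] [Module k E] (ψ : E →ₗ[k] E →ₗ[k] k)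
    (r : Representation k Γ E) (c : Γ →* k) (h : ∀ s u v, ψ (r s u) (r s v) = c s * ψ u v)
    (g : Γ) {X : End k E} (hX : X ∈ SpL ψ) : r g * X * r g⁻¹ ∈ SpL ψ := by
  intro u w
  have h1 : ψ ((r g * X * r g⁻¹) u) w = c g * ψ (X (r g⁻¹ u)) (r g⁻¹ w) := by
    rw [← h, rho_mul_inv]
    rfl
  have h2 : ψ u ((r g * X * r g⁻¹) w) = c g * ψ (r g⁻¹ u) (X (r g⁻¹ w)) := by
    rw [← h, rho_mul_inv]
    rfl
  have h3 := hX (r g⁻¹ u) (r g⁻¹ w)
  rw [h1, h2]
  linear_combination c g * h3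

theorem gg_bracket {x y : (∀ i, End k (V i)) × End k W} (hx : x ∈ gg ρ σ κ ω)
    (hy : y ∈ gg ρ σ κ ω) : x * y - y * x ∈ gg ρ σ κ ω := by
  rw [mem_gg] at *
  refine ⟨?_, fun i => SpL_bracket (ω i) (hx.2 i) (hy.2 i)⟩
  rw [map_sub, map_mul, map_mul]
  exact lieZ_bracket _ _ hx.1 hy.1

theorem gg_bracket' {A B : ∀ i, End k (V i)} {A' B' : End k W} (hA : (A, A') ∈ gg ρ σ κ ω)
    (hB : (B, B') ∈ gg ρ σ κ ω) :
    (((fun i => A i * B i - B i * A i), A' * B' - B' * A') :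
      (∀ i, End k (V i)) × End k W) ∈ gg ρ σ κ ω := by
  have h1 := gg_bracket ρ σ κ ω hA hB
  have h2 : (A, A') * (B, B') - (B, B') * (A, A') = (((fun i => A i * B i - B i * A i),
      A' * B' - B' * A') : (∀ i, End k (V i)) × End k W) := Prod.ext (funext fun i => rfl) rfl
  rw [h2] at h1
  exact h1

variable {χ}

theorem gg_conj (hωρ : ∀ i s u v, ω i (ρ i s u) (ρ i s v) = χ i s * ω i u v) (g : Γ)
    {x : (∀ i, End k (V i)) × End k W} (hx : x ∈ gg ρ σ κ ω) :
    ((fun i => ρ i g * x.1 i * ρ i g⁻¹, σ g * x.2 * σ g⁻¹) :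
      (∀ i, End k (V i)) × End k W) ∈ gg ρ σ κ ω := by
  rw [mem_gg] at *
  refine ⟨?_, fun i => SpL_conj (ω i) (ρ i) (χ i) (hωρ i) g (hx.2 i)⟩
  have h1 := lieZ_conj (tot ρ σ) κ g hx.1
  rw [tot_eq, tot_eq, ← map_mul, ← map_mul] at h1
  exact h1

theorem gg_conj' (hωρ : ∀ i s u v, ω i (ρ i s u) (ρ i s v) = χ i s * ω i u v) (g : Γ)
    {A : ∀ i, End k (V i)} {A' : End k W} (hA : (A, A') ∈ gg ρ σ κ ω) :
    (((fun i => ρ i g * A i * ρ i g⁻¹), σ g * A' * σ g⁻¹) :
      (∀ i, End k (V i)) × End k W) ∈ gg ρ σ κ ω := by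
  have h := gg_conj ρ σ κ ω hωρ g hA
  rw [mem_gg] at h ⊢
  exact ⟨h.1, h.2⟩

/-- The logarithm of a unipotent element. -/
theorem exists_lg [∀ i, FiniteDimensional k (V i)]
    (hωρ : ∀ i s u v, ω i (ρ i s u) (ρ i s v) = χ i s * ω i u v) {τ : Γ} (hκ : κ τ = 1)
    (hχ : ∀ i, χ i τ = 1) (hnil : ∀ i, IsNilpotent (ρ i τ - 1)) (hnilW : IsNilpotent (σ τ - 1)) :
    ∃ x ∈ gg ρ σ κ ω, (∀ i, IsNilpotent (x.1 i) ∧ ∀ m, (x.1 i) ^ m = 0 ↔ (ρ i τ - 1) ^ m = 0) ∧
      ∀ m, x.2 ^ m = 0 ↔ (σ τ - 1) ^ m = 0 := by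
  choose d hd using hnil
  obtain ⟨d', hd'⟩ := hnilW
  set D := ∑ i, d i + d' with hD
  have hle : ∀ i, d i ≤ D := fun i => (Finset.single_le_sum (f := d) (fun _ _ => Nat.zero_le _)
    (Finset.mem_univ i)).trans (Nat.le_add_right _ _)
  have hz : ∀ i, (ρ i τ - 1) ^ (D + 2) = 0 := by
    intro i
    obtain ⟨c, hc⟩ := Nat.exists_eq_add_of_le (hle i)
    rw [hc, add_assoc, pow_add, hd, zero_mul]
  have hzW : (σ τ - 1) ^ (D + 2) = 0 := by
    obtain ⟨c, hc⟩ := Nat.exists_eq_add_of_le (show d' ≤ D from Nat.le_add_left _ _)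
    rw [hc, add_assoc, pow_add, hd', zero_mul]
  have h0 : tot ρ σ τ - 1 = dE ((fun i => ρ i τ - 1, σ τ - 1) :
      (∀ i, End k (V i)) × End k W) := by
    rw [tot_eq, ← map_one (dE (k := k) (V := V) (W := W)), ← map_sub]
    rfl
  have h1 : (tot ρ σ τ - 1) ^ (D + 2) = 0 := by
    rw [h0, ← map_pow]
    have h2 : ((fun i => ρ i τ - 1, σ τ - 1) : (∀ i, End k (V i)) × End k W) ^ (D + 2) = 0 :=
      Prod.ext (funext fun i => hz i) hzW
    rw [h2, map_zero]
  have h3 := lg_memZ (tot ρ σ) κ h1 hκ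
  rw [h0, lgA_dE] at h3
  refine ⟨_, (mem_gg ρ σ κ ω _).2 ⟨h3, fun i => ?_⟩, fun i => ⟨?_, fun m => ?_⟩, fun m => ?_⟩
  · have h4 := lg_mem (ρ i) (χ i) (hz i) (hχ i)
    exact fun u w => lieT_sp (ρ i) (χ i) (ω i) (hωρ i) h4 u w
  · exact lgA_one_nil D ⟨D + 2, hz i⟩
  · exact lgA_one_pow D ⟨D + 2, hz i⟩ m
  · exact lgA_one_pow D ⟨D + 2, hzW⟩ m

end Pool.Agent.N978.TP
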