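import Mathlib
import Pool.Agent.N978.HP.SumTate
import Pool.Agent.N978.TP.Lie

/-!
# The Lie algebra contains the symplectic Lie algebras of the `V i`, acting trivially on `W`
-/

set_option autoImplicit false
set_option linter.unusedSectionVars false
set_option linter.unusedVariables false
set_option linter.unusedTactic false

namespace Pool.Agent.N978.TP

open Module Polynomial Pool.Agent.H204R3.GP Pool.Agent.H204R3.SP Pool.Agent.Y114.TF
  Pool.Agent.Y114.MU Pool.Agent.N978.HP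

variable {k : Type} [Field k] [CharZero k] {ι : Type} [Fintype ι] [DecidableEq ι]
  {V : ι → Type} [∀ i, AddCommGroup (V i)] [∀ i, Module k (V i)]
  {W : Type} [AddCommGroup W] [Module k W]
  {Γ : Type} [Group Γ] (ρ : ∀ i, Representation k Γ (V i)) (σ : Representation k Γ W)
  (κ : Γ →* k) (ω : ∀ i, V i →ₗ[k] V i →ₗ[k] k) (χ : ι → Γ →* k)

theorem sum_lie_W [∀ i, FiniteDimensional k (V i)] (r : ι → ℕ)
    (hdim : ∀ i, finrank k (V i) = r i + 1)
    (hodd : ∀ i, Odd (r i)) (halt : ∀ i v, ω i v v = 0)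
    (hnd : ∀ i u, (∀ v, ω i v u = 0) → u = 0)
    (hωρ : ∀ i s u v, ω i (ρ i s u) (ρ i s v) = χ i s * ω i u v)
    (hirr : ∀ i (U : Submodule k (V i)), (∀ s, ∀ u ∈ U, ρ i s u ∈ U) → U = ⊥ ∨ U = ⊤)
    (τ : ι → Γ) (hκ : ∀ i, κ (τ i) = 1) (hχ : ∀ i j, χ j (τ i) = 1)
    (hnil : ∀ i j, IsNilpotent (ρ j (τ i) - 1))
    (hne : ∀ i, (ρ i (τ i) - 1) ^ r i ≠ 0)
    (hz : ∀ i j, i ≠ j → r j = r i → (ρ j (τ i) - 1) ^ r j = 0)
    (hzW : ∀ i, (σ (τ i) - 1) ^ r i = 0)
    (hfrob : ∀ i, 3 ≤ r i → (∃ (g : Γ) (P : ℚ[X]), (ρ i g).charpoly = P.map (algebraMap ℚ k) ∧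
      ThreeIndependent P) ∨ ∃ γ : Γ, κ γ = 1 ∧ (∀ j, χ j γ = 1) ∧
        (∀ j, IsNilpotent (ρ j γ - 1)) ∧ IsNilpotent (σ γ - 1) ∧ ρ i γ ≠ 1 ∧
        (ρ i γ - 1) ^ r i = 0) :
    ∃ (e : ∀ i, Basis (Fin (r i + 1)) k (V i)) (jj : ∀ i, Fin (r i + 1) → k),
      (∀ i x, jj i (Fin.rev x) = -jj i x) ∧ (∀ i x, jj i x ≠ 0) ∧
      (∀ i x y, ω i (e i x) (e i y) = JJ Fin.rev (jj i) x y) ∧
      ∀ i, ∀ X ∈ SpL (ω i), ((Pi.single i X, 0) : (∀ i, End k (V i)) × End k W) ∈ gg ρ σ κ ω := by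
  classical
  have hlog : ∀ i, ∃ x ∈ gg ρ σ κ ω, (∀ j, IsNilpotent (x.1 j) ∧
      ∀ m, (x.1 j) ^ m = 0 ↔ (ρ j (τ i) - 1) ^ m = 0) ∧ ∀ m, x.2 ^ m = 0 ↔ (σ (τ i) - 1) ^ m = 0 :=
    fun i => exists_lg ρ σ κ ω hωρ (hκ i) (hχ i) (hnil i) ⟨_, hzW i⟩
  choose N' hNg hN' hNW using hlog
  let N : ι → ∀ i, End k (V i) := fun i => (N' i).1
  -- the first components
  obtain ⟨𝔞, h𝔞⟩ : ∃ 𝔞 : Submodule k (∀ i, End k (V i)), ∀ A, A ∈ 𝔞 ↔
      ∃ B : End k W, (A, B) ∈ gg ρ σ κ ω := by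
    refine ⟨(gg ρ σ κ ω).map (LinearMap.fst k (∀ i, End k (V i)) (End k W)), fun A => ?_⟩
    constructor
    · rintro ⟨⟨A', B⟩, h, rfl⟩
      exact ⟨B, h⟩
    · rintro ⟨B, h⟩
      exact ⟨(A, B), h, rfl⟩
  have hN : ∀ i, N i ∈ 𝔞 := by
    intro i
    rw [h𝔞]
    exact ⟨(N' i).2, hNg i⟩
  have hbr : ∀ A ∈ 𝔞, ∀ B ∈ 𝔞, (fun i => A i * B i - B i * A i) ∈ 𝔞 := by
    intro A hA B hB
    obtain ⟨A', hA⟩ := (h𝔞 A).1 hA
    obtain ⟨B', hB⟩ := (h𝔞 B).1 hB
    rw [h𝔞]
    exact ⟨A' * B' - B' * A', gg_bracket' ρ σ κ ω hA hB⟩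
  have hsp : ∀ A ∈ 𝔞, ∀ i, A i ∈ SpL (ω i) := by
    intro A hA i
    obtain ⟨A', hA⟩ := (h𝔞 A).1 hA
    exact ((mem_gg ρ σ κ ω _).1 hA).2 i
  have hconj : ∀ (s : Γ), ∀ A ∈ 𝔞, (fun i => ρ i s * A i * ρ i s⁻¹) ∈ 𝔞 := by
    intro s A hA
    obtain ⟨A', hA⟩ := (h𝔞 A).1 hA
    rw [h𝔞]
    have h1 := gg_conj' ρ σ κ ω hωρ s hA
    exact ⟨σ s * A' * σ s⁻¹, h1⟩
  have hreg : ∀ i, Reg (N i i) (r i) := fun i =>
    ⟨hdim i, (hN' i i).1, fun h => hne i (((hN' i i).2 _).1 h)⟩
  -- the components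
  let L : ∀ i, Submodule k (End k (V i)) := fun i => 𝔞.map (LinearMap.proj i)
  have hL : ∀ i X, X ∈ L i ↔ ∃ A ∈ 𝔞, A i = X := fun i X => Iff.rfl
  have hfac : ∀ i, ∃ (e : Basis (Fin (r i + 1)) k (V i)) (jj : Fin (r i + 1) → k),
      (∀ x, jj (Fin.rev x) = -jj x) ∧ (∀ x, jj x ≠ 0) ∧
      (∀ x y, ω i (e x) (e y) = JJ Fin.rev jj x y) ∧ ∀ u w, SS (ω i) u w ∈ L i := by
    intro i
    refine factor_or (hreg i) (hodd i) (ω i) (halt i) (hnd i) (ρ i) (L i) ?_ ?_ ?_ (hirr i) ?_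
      (fun hi => (hfrob i hi).imp id ?_)
    · rintro _ ⟨A, hA, rfl⟩ _ ⟨B, hB, rfl⟩
      exact ⟨_, hbr A hA B hB, rfl⟩
    · rintro _ ⟨A, hA, rfl⟩
      exact hsp A hA i
    · rintro s _ ⟨A, hA, rfl⟩
      exact ⟨_, hconj s A hA, rfl⟩
    · exact ⟨N i, hN i, rfl⟩
    · rintro ⟨γ, hγκ, hγχ, hγn, hγW, hγ1, hγr⟩
      obtain ⟨x, hx, hx', -⟩ := exists_lg ρ σ κ ω hωρ hγκ hγχ hγn hγW
      have hx1 : x.1 ∈ 𝔞 := by
        rw [h𝔞]
        exact ⟨x.2, hx⟩
      refine ⟨x.1 i, ⟨x.1, hx1, rfl⟩, fun h0 => hγ1 ?_, (hx' i).1,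
        ((hx' i).2 _).2 hγr⟩
      have h1 := ((hx' i).2 1).1 (by rw [pow_one]; exact h0)
      rw [pow_one] at h1
      exact sub_eq_zero.1 h1
  choose e jj hjj hj0 hω hSS using hfac
  have hSpL : ∀ i, SpL (ω i) ≤ L i := fun i =>
    SpL_le (ω i) (e i) Fin.rev_rev (hjj i) (hj0 i) (hω i) (hSS i)
  have hvec : ∀ i, ∃ v : V i, ω i v ((N i i ^ r i) v) ≠ 0 := by
    intro i
    by_contra hcon
    push Not at hcon
    apply (hreg i).ne
    -- the form `(u, v) ↦ ω (N ^ r u) v` is symmetric as `r` is odd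
    have hsp' := hsp (N i) (hN i) i
    have hadj : ∀ (m : ℕ) (u w : V i), ω i u ((N i i ^ m) w) = (-1) ^ m * ω i ((N i i ^ m) u) w := by
      intro m
      induction m with
      | zero => intro u w; simp
      | succ m ih =>
        intro u w
        have e1 : (N i i ^ (m + 1)) w = (N i i ^ m) (N i i w) := by
          rw [pow_succ, Module.End.mul_apply]
        have e2 : (N i i ^ (m + 1)) u = N i i ((N i i ^ m) u) := by
          rw [pow_succ', Module.End.mul_apply]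
        rw [e1, e2, ih, pow_succ]
        have h1 := hsp' ((N i i ^ m) u) w
        linear_combination (-1) ^ m * h1
    refine LinearMap.ext fun u => ?_
    rw [LinearMap.zero_apply]
    refine hnd i _ fun w => ?_
    have h1 := hcon (u + w)
    simp only [map_add, LinearMap.add_apply, hcon, zero_add, add_zero] at h1
    have h2 := hadj (r i) u w
    rw [(hodd i).neg_one_pow] at h2
    have h3 := alt_neg (ω i) (halt i) ((N i i ^ r i) u) w
    have h4 : (2 : k) * ω i w ((N i i ^ r i) u) = 0 := by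
      linear_combination h1 - h2 + h3
    exact (mul_eq_zero.1 h4).resolve_left two_ne_zero
  have hadne : ∀ i (v : V i), ω i v ((N i i ^ r i) v) ≠ 0 →
      ((LinearMap.mulLeft k (N i i) - LinearMap.mulRight k (N i i)) ^ (2 * r i))
        (SS (ω i) v v) ≠ 0 := by
    intro i v hv
    rw [ad_top (hreg i).pow_dim]
    refine smul_ne_zero (mul_ne_zero (pow_ne_zero _ (by norm_num))
      (Nat.cast_ne_zero.2 (Nat.choose_pos (by omega)).ne')) ?_
    intro h0
    have h1 := congrArg (fun T : End k (V i) => T v) h0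
    simp only [Module.End.mul_apply, SS_apply, LinearMap.zero_apply, map_add, map_smul] at h1
    rw [← add_smul, ← two_mul] at h1
    rcases smul_eq_zero.1 h1 with h2 | h2
    · exact (mul_ne_zero two_ne_zero hv) h2
    · rw [h2, map_zero] at hv
      exact hv rfl
  -- the pairs
  have hpair0 : ∀ i j, i ≠ j → r j ≤ r i → ∃ A ∈ 𝔞, A j = 0 ∧ A i ≠ 0 := by
    intro i j hij hle
    obtain ⟨v, hv⟩ := hvec i
    obtain ⟨Y, hY, hYi⟩ := (hL i _).1 (hSS i v v)
    have hiter : ∀ m : ℕ, (fun l => ((LinearMap.mulLeft k (N i l) -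
        LinearMap.mulRight k (N i l)) ^ m) (Y l)) ∈ 𝔞 := by
      intro m
      induction m with
      | zero => exact hY
      | succ m ih =>
        have h1 := hbr (N i) (hN i) _ ih
        have h2 : (fun l => N i l * ((LinearMap.mulLeft k (N i l) -
            LinearMap.mulRight k (N i l)) ^ m) (Y l) - ((LinearMap.mulLeft k (N i l) -
            LinearMap.mulRight k (N i l)) ^ m) (Y l) * N i l) =
            fun l => ((LinearMap.mulLeft k (N i l) -
              LinearMap.mulRight k (N i l)) ^ (m + 1)) (Y l) := by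
          funext l
          rw [pow_succ', Module.End.mul_apply]
          rfl
        rw [h2] at h1
        exact h1
    refine ⟨_, hiter (2 * r i), ?_, ?_⟩
    · beta_reduce
      refine ad_zero ?_ _
      rcases eq_or_lt_of_le hle with h | h
      · rw [← h]
        exact ((hN' i j).2 _).2 (hz i j hij h)
      · have h1 : finrank k (V j) ≤ r i := by rw [hdim]; omega
        obtain ⟨c, hc⟩ := Nat.exists_eq_add_of_le h1
        have h2 := (N i j).aeval_self_charpoly
        rw [(show LinearMap.charpoly (N i j) = _ from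
          IsNilpotent.charpoly_eq_X_pow_finrank (hN' i j).1)] at h2
        rw [map_pow, aeval_X] at h2
        rw [hc, pow_add, h2, zero_mul]
    · beta_reduce
      rw [hYi]
      exact hadne i v hv
  have hgoursat : ∀ i, ∀ X ∈ SpL (ω i), Pi.single i X ∈ 𝔞 := by
    intro i X hX
    refine goursat 𝔞 hbr (fun i => SpL (ω i)) hsp (fun i X hX => (hL i X).1 (hSpL i hX)) ?_ ?_ ?_
      i hX
    · intro i J hJle hJ hJne
      exact SpL_le (ω i) (e i) Fin.rev_rev (hjj i) (hj0 i) (hω i)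
        fun u w => J_all (ω i) (halt i) hJle hJ (hnd i) hJne w u
    · intro i
      obtain ⟨v, hv⟩ := hvec i
      refine SpL_nab (ω i) (hnd i) (halt i) (u := v) ?_
      rintro rfl
      rw [map_zero, map_zero] at hv
      exact hv rfl
    · intro i j hij
      rcases le_total (r j) (r i) with h | h
      · exact Or.inl (hpair0 i j hij h)
      · exact Or.inr (hpair0 j i hij.symm h)
  refine ⟨e, jj, hjj, hj0, hω, fun i => ?_⟩
  -- the elements which act as zero on `W`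
  obtain ⟨J, hJ⟩ : ∃ J : Submodule k (End k (V i)), ∀ X, X ∈ J ↔
      ((Pi.single i X, 0) : (∀ i, End k (V i)) × End k W) ∈ gg ρ σ κ ω :=
    ⟨(gg ρ σ κ ω).comap ((LinearMap.inl k (∀ i, End k (V i)) (End k W)).comp
      (LinearMap.single k (fun i => End k (V i)) i)), fun X => Iff.rfl⟩
  have hJle : J ≤ SpL (ω i) := by
    intro X hX
    have h1 := ((mem_gg ρ σ κ ω _).1 ((hJ X).1 hX)).2 i
    change (Pi.single (M := fun i => End k (V i)) i X) i ∈ SpL (ω i) at h1
    rwa [Pi.single_eq_same] at h1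
  have hJbr : ∀ X ∈ SpL (ω i), ∀ Y ∈ J, X * Y - Y * X ∈ J := by
    intro X hX Y hY
    obtain ⟨B, hB⟩ := (h𝔞 _).1 (hgoursat i X hX)
    have h1 := gg_bracket' ρ σ κ ω hB ((hJ Y).1 hY)
    rw [hJ]
    have h2 : (fun j => Pi.single (M := fun i => End k (V i)) i X j *
        Pi.single (M := fun i => End k (V i)) i Y j -
        Pi.single (M := fun i => End k (V i)) i Y j *
        Pi.single (M := fun i => End k (V i)) i X j) =
        Pi.single (M := fun i => End k (V i)) i (X * Y - Y * X) := by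
      funext j
      by_cases hj : j = i
      · subst hj
        rw [Pi.single_eq_same, Pi.single_eq_same, Pi.single_eq_same]
      · rw [Pi.single_eq_of_ne hj, Pi.single_eq_of_ne hj, Pi.single_eq_of_ne hj, mul_zero,
          sub_zero]
    rw [h2, mul_zero, zero_mul, sub_zero] at h1
    exact h1
  have hJne : ∃ Y ∈ J, Y ≠ 0 := by
    obtain ⟨v, hv⟩ := hvec i
    obtain ⟨B, hB⟩ := (h𝔞 _).1 (hgoursat i _ (SS_mem_SpL (ω i) (halt i) v v))
    have hiter : ∀ m : ℕ, ((fun l => ((LinearMap.mulLeft k (N i l) -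
        LinearMap.mulRight k (N i l)) ^ m) (Pi.single (M := fun i => End k (V i)) i
          (SS (ω i) v v) l), ((LinearMap.mulLeft k (N' i).2 - LinearMap.mulRight k (N' i).2) ^ m) B) :
          (∀ i, End k (V i)) × End k W) ∈ gg ρ σ κ ω := by
      intro m
      induction m with
      | zero => exact hB
      | succ m ih =>
        have h1 := gg_bracket' ρ σ κ ω (A := N i) (A' := (N' i).2) (hNg i) ih
        have h2 : (fun l => N i l * ((LinearMap.mulLeft k (N i l) -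
            LinearMap.mulRight k (N i l)) ^ m) (Pi.single (M := fun i => End k (V i)) i
              (SS (ω i) v v) l) - ((LinearMap.mulLeft k (N i l) -
            LinearMap.mulRight k (N i l)) ^ m) (Pi.single (M := fun i => End k (V i)) i
              (SS (ω i) v v) l) * N i l) =
            fun l => ((LinearMap.mulLeft k (N i l) -
              LinearMap.mulRight k (N i l)) ^ (m + 1)) (Pi.single (M := fun i => End k (V i)) i
              (SS (ω i) v v) l) := by
          funext l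
          rw [pow_succ', Module.End.mul_apply]
          rfl
        have h3 : (N' i).2 * ((LinearMap.mulLeft k (N' i).2 -
            LinearMap.mulRight k (N' i).2) ^ m) B - ((LinearMap.mulLeft k (N' i).2 -
            LinearMap.mulRight k (N' i).2) ^ m) B * (N' i).2 =
            ((LinearMap.mulLeft k (N' i).2 - LinearMap.mulRight k (N' i).2) ^ (m + 1)) B := by
          rw [pow_succ', Module.End.mul_apply]
          rfl
        rw [h2, h3] at h1
        exact h1
    refine ⟨((LinearMap.mulLeft k (N i i) - LinearMap.mulRight k (N i i)) ^ (2 * r i))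
      (SS (ω i) v v), ?_, hadne i v hv⟩
    rw [hJ]
    have h1 := hiter (2 * r i)
    have h2 : (fun l => ((LinearMap.mulLeft k (N i l) -
        LinearMap.mulRight k (N i l)) ^ (2 * r i)) (Pi.single (M := fun i => End k (V i)) i
          (SS (ω i) v v) l)) = Pi.single (M := fun i => End k (V i)) i
        (((LinearMap.mulLeft k (N i i) - LinearMap.mulRight k (N i i)) ^ (2 * r i))
          (SS (ω i) v v)) := by
      funext l
      by_cases hl : l = i
      · subst hl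
        rw [Pi.single_eq_same, Pi.single_eq_same]
      · rw [Pi.single_eq_of_ne hl, Pi.single_eq_of_ne hl, map_zero]
    have h3 : ((LinearMap.mulLeft k (N' i).2 - LinearMap.mulRight k (N' i).2) ^ (2 * r i)) B = 0 :=
      ad_zero (((hNW i) _).2 (hzW i)) B
    rw [h2, h3] at h1
    exact h1
  have hall : SpL (ω i) ≤ J := SpL_le (ω i) (e i) Fin.rev_rev (hjj i) (hj0 i) (hω i)
    fun u w => J_all (ω i) (halt i) hJle hJbr (hnd i) hJne w u
  exact fun X hX => (hJ X).1 (hall hX)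

end Pool.Agent.N978.TP
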