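import Mathlib
import Pool.Agent.H204R3.GP.FFT
import Pool.Agent.N978.TP.Sum

/-!
# Forms which are killed by the symplectic Lie algebras are combinations of products
-/

set_option autoImplicit false
set_option linter.unusedSectionVars false
set_option linter.unusedVariables false

namespace Pool.Agent.N978.TP

open Module Polynomial Pool.Agent.H204R3.CM Pool.Agent.H204R3.GP Pool.Agent.H204R3.SP
  Pool.Agent.Y114.TF
  Pool.Agent.Y114.MU Pool.Agent.N978.HP

variable {k : Type} [Field k] [CharZero k] {ι : Type} [Fintype ι] [DecidableEq ι]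
  {V : ι → Type} [∀ i, AddCommGroup (V i)] [∀ i, Module k (V i)]

/-- The products of the forms `ω i`. -/
def PP (ω : ∀ i, V i →ₗ[k] V i →ₗ[k] k) (s : Type) :
    Set (MultilinearMap k (fun _ : s => ∀ i, V i) k) :=
  {φ | ∃ (m : ℕ) (e : Fin m × Fin 2 ≃ s) (u : Fin m → ι), ∀ x,
    φ x = ∏ l, ω (u l) (x (e (l, 0)) (u l)) (x (e (l, 1)) (u l))}

variable (ω : ∀ i, V i →ₗ[k] V i →ₗ[k] k)

section scalar

variable {r : ι → ℕ} (hodd : ∀ i, Odd (r i)) (e : ∀ i, Basis (Fin (r i + 1)) k (V i))
  (jj : ∀ i, Fin (r i + 1) → k) (hjj : ∀ i x, jj i (Fin.rev x) = -jj i x)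
  (hj0 : ∀ i x, jj i x ≠ 0) (hω : ∀ i x y, ω i (e i x) (e i y) = JJ Fin.rev (jj i) x y)

/-- The involution. -/
def iv (r : ι → ℕ) (x : Σ i, Fin (r i + 1)) : Σ i, Fin (r i + 1) := ⟨x.1, Fin.rev x.2⟩

/-- The signs. -/
def jv (jj : ∀ i, Fin (r i + 1) → k) (x : Σ i, Fin (r i + 1)) : k := jj x.1 x.2

theorem iv_iv (x : Σ i, Fin (r i + 1)) : iv r (iv r x) = x := by
  obtain ⟨i, a⟩ := x
  simp [iv]

include hodd in
theorem iv_ne (x : Σ i, Fin (r i + 1)) : iv r x ≠ x := by
  obtain ⟨i, a⟩ := x
  intro h
  have ha : Fin.rev a = a := eq_of_heq (Sigma.mk.inj h).2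
  rw [Fin.ext_iff, Fin.val_rev] at ha
  obtain ⟨p, hp⟩ := hodd i
  omega

theorem basis_single (i : ι) (a : Fin (r i + 1)) :
    (Pi.basis e : Basis (Σ i, Fin (r i + 1)) k (∀ i, V i)) ⟨i, a⟩ = Pi.single i (e i a) :=
  Pi.basis_apply e ⟨i, a⟩

include hω in
theorem part_basis (c : ι) (x y : Σ i, Fin (r i + 1)) :
    partForm ω c (Pi.basis e x) (Pi.basis e y) = if x.1 = c then JJ (iv r) (jv jj) x y else 0 := by
  obtain ⟨i, a⟩ := x
  obtain ⟨j, b⟩ := y
  rw [basis_single, basis_single]
  change ω c (Pi.single (M := V) i (e i a) c) (Pi.single (M := V) j (e j b) c) = _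
  by_cases hi : i = c
  · subst hi
    rw [Pi.single_eq_same, if_pos rfl]
    by_cases hij : j = i
    · subst hij
      rw [Pi.single_eq_same, hω]
      unfold JJ
      by_cases hb : b = Fin.rev a
      · rw [if_pos hb, if_pos (by simp [iv, hb])]
        rfl
      · rw [if_neg hb, if_neg]
        intro h
        exact hb (eq_of_heq (Sigma.mk.inj h).2)
    · rw [Pi.single_eq_of_ne (Ne.symm hij), map_zero]
      unfold JJ
      rw [if_neg]
      intro h
      exact hij (Sigma.mk.inj h).1
  · rw [Pi.single_eq_of_ne (Ne.symm hi), map_zero, LinearMap.zero_apply, if_neg hi]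

include hω in
theorem SS_basis (i : ι) (b c : Fin (r i + 1)) (x : Σ i, Fin (r i + 1)) :
    piE (Pi.single i (SS (ω i) (e i b) (e i c))) (Pi.basis e x) =
      JJ (iv r) (jv jj) ⟨i, b⟩ x • Pi.basis e ⟨i, c⟩ +
        JJ (iv r) (jv jj) ⟨i, c⟩ x • Pi.basis e ⟨i, b⟩ := by
  have h1 : ∀ a : Fin (r i + 1), JJ (iv r) (jv jj) ⟨i, a⟩ x =
      ω i (e i a) ((Pi.basis e x : ∀ i, V i) i) := by
    intro a
    have h2 := part_basis ω e jj hω i ⟨i, a⟩ x
    rw [if_pos rfl] at h2
    rw [← h2, basis_single e i a]
    change ω i (Pi.single (M := V) i (e i a) i) ((Pi.basis e x : ∀ i, V i) i) = _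
    rw [Pi.single_eq_same]
  rw [h1, h1, basis_single e i c, basis_single e i b]
  generalize (Pi.basis e x : ∀ i, V i) = v
  funext j
  rw [piE_apply, Pi.add_apply, Pi.smul_apply, Pi.smul_apply]
  by_cases hj : j = i
  · subst hj
    rw [Pi.single_eq_same, Pi.single_eq_same, Pi.single_eq_same, SS_apply]
  · rw [Pi.single_eq_of_ne hj, Pi.single_eq_of_ne hj, Pi.single_eq_of_ne hj, LinearMap.zero_apply,
      smul_zero, smul_zero, add_zero]

variable (halt : ∀ i v, ω i v v = 0)

include hjj hj0 hω halt in
/-- The first fundamental theorem. -/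
theorem scalar_fft {s : Type} [Fintype s] [DecidableEq s] {m : ℕ} (hs : Fintype.card s = 2 * m)
    (φ : MultilinearMap k (fun _ : s => ∀ i, V i) k)
    (hkill : ∀ i, ∀ X ∈ SpL (ω i), Kills (piE (Pi.single i X)) φ) :
    φ ∈ Submodule.span k (PP ω s) := by
  classical
  let E : Basis (Σ i, Fin (r i + 1)) k (∀ i, V i) := Pi.basis e
  let coef : MultilinearMap k (fun _ : s => ∀ i, V i) k →ₗ[k] ((s → Σ i, Fin (r i + 1)) → k) :=
    { toFun := fun φ I => φ (fun l => E (I l))
      map_add' := fun _ _ => rfl
      map_smul' := fun _ _ => rfl }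
  have hinj : Function.Injective coef := fun φ φ' h =>
    Basis.ext_multilinear (fun _ => E) fun I => congrFun h I
  have hrel : ∀ b c : Σ i, Fin (r i + 1), (iv r b).1 = c.1 → ∀ I : s → Σ i, Fin (r i + 1),
      ∑ l, (JJ (iv r) (jv jj) b (I l) * coef φ (Function.update I l c) +
        JJ (iv r) (jv jj) c (I l) * coef φ (Function.update I l b)) = 0 := by
    rintro ⟨i, b⟩ ⟨i', c⟩ hbc I
    obtain rfl : i = i' := hbc
    have h3 := hkill i _ (SS_mem_SpL (ω i) (halt i) (e i b) (e i c)) (fun l => E (I l))
    rw [← h3]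
    refine Finset.sum_congr rfl fun l _ => ?_
    have h5 : piE (Pi.single i (SS (ω i) (e i b) (e i c))) (E (I l)) =
        JJ (iv r) (jv jj) ⟨i, b⟩ (I l) • E ⟨i, c⟩ + JJ (iv r) (jv jj) ⟨i, c⟩ (I l) • E ⟨i, b⟩ :=
      SS_basis ω e jj hω i b c (I l)
    rw [h5, MultilinearMap.map_update_add, MultilinearMap.map_update_smul,
      MultilinearMap.map_update_smul, smul_eq_mul, smul_eq_mul]
    have h4 : ∀ z : Σ i, Fin (r i + 1), coef φ (Function.update I l z) =
        φ (Function.update (fun l => E (I l)) l (E z)) := by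
      intro z
      change φ (fun a => E (Function.update I l z a)) = _
      congr 1
      funext a
      by_cases ha : a = l
      · subst ha
        rw [Function.update_self, Function.update_self]
      · rw [Function.update_of_ne ha, Function.update_of_ne ha]
    rw [h4, h4]
  let cls : (Σ i, Fin (r i + 1)) → ι := Sigma.fst
  let F : (s → ι) → ((s → Σ i, Fin (r i + 1)) → k) := fun t I =>
    if (fun l => cls (I l)) = t then coef φ I else 0
  have hF : coef φ = ∑ t, F t := by
    funext I
    rw [Finset.sum_apply]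
    simp only [F]
    rw [Finset.sum_ite_eq, if_pos (Finset.mem_univ _)]
  have hcls : ∀ x y : Σ i, Fin (r i + 1), cls x = cls y → cls (iv r x) = cls (iv r y) :=
    fun x y h => h
  have hFt : ∀ t, F t ∈ InvG cls (iv r) (jv jj) s t := by
    intro t
    refine ⟨fun b c hbc I => ?_, fun I hI l => ?_⟩
    · have htype : ∀ (l : s) (z : Σ i, Fin (r i + 1)), cls (I l) = cls z →
          (fun a => cls (Function.update I l z a)) = fun a => cls (I a) := by
        intro l z hz
        funext a
        by_cases ha : a = l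
        · subst ha
          rw [Function.update_self, hz]
        · rw [Function.update_of_ne ha]
      have h1 : ∀ l, JJ (iv r) (jv jj) b (I l) * F t (Function.update I l c) +
          JJ (iv r) (jv jj) c (I l) * F t (Function.update I l b) =
          if (fun l => cls (I l)) = t then
            JJ (iv r) (jv jj) b (I l) * coef φ (Function.update I l c) +
            JJ (iv r) (jv jj) c (I l) * coef φ (Function.update I l b) else 0 := by
        intro l
        have e1 : JJ (iv r) (jv jj) b (I l) * F t (Function.update I l c) =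
            if (fun l => cls (I l)) = t then JJ (iv r) (jv jj) b (I l) *
              coef φ (Function.update I l c) else 0 := by
          by_cases h : I l = iv r b
          · have h2 := htype l c (by rw [h, hbc])
            simp only [F]
            rw [h2]
            split_ifs
            · rfl
            · rw [mul_zero]
          · have h2 : JJ (iv r) (jv jj) b (I l) = 0 := by
              unfold JJ
              rw [if_neg h]
            rw [h2, zero_mul, zero_mul]
            split_ifs <;> rfl
        have e2 : JJ (iv r) (jv jj) c (I l) * F t (Function.update I l b) =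
            if (fun l => cls (I l)) = t then JJ (iv r) (jv jj) c (I l) *
              coef φ (Function.update I l b) else 0 := by
          by_cases h : I l = iv r c
          · have h2 := htype l b (by rw [h, ← hcls _ _ hbc, iv_iv])
            simp only [F]
            rw [h2]
            split_ifs
            · rfl
            · rw [mul_zero]
          · have h2 : JJ (iv r) (jv jj) c (I l) = 0 := by
              unfold JJ
              rw [if_neg h]
            rw [h2, zero_mul, zero_mul]
            split_ifs <;> rfl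
        rw [e1, e2]
        split_ifs
        · rfl
        · rw [add_zero]
      rw [Finset.sum_congr rfl (fun l _ => h1 l)]
      by_cases hI : (fun l => cls (I l)) = t
      · simp only [if_pos hI]
        exact hrel b c hbc I
      · simp only [if_neg hI]
        exact Finset.sum_const_zero
    · by_contra h
      apply hI
      simp only [F]
      rw [if_neg]
      rintro rfl
      exact h rfl
  have h1 : coef φ ∈ MatG cls (iv r) (jv jj) s m := by
    rw [hF]
    exact Submodule.sum_mem _ fun t _ => fftG iv_iv (fun x => hjj x.1 x.2) (fun x => hj0 x.1 x.2)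
      hcls m s hs t (hFt t)
  have h3 : MatG cls (iv r) (jv jj) s m ≤ (Submodule.span k (PP ω s)).map coef := by
    unfold MatG
    rw [Submodule.span_le]
    rintro _ ⟨σ, c, rfl⟩
    let P : MultilinearMap k (fun _ : s => ∀ i, V i) k :=
      (prodMap (fun l : Fin m => bil2 (partForm ω (c l)))).domDomCongr σ
    have hP : ∀ x, P x = ∏ l, ω (c l) (x (σ (l, 0)) (c l)) (x (σ (l, 1)) (c l)) := fun x => rfl
    refine ⟨P, Submodule.subset_span ⟨m, σ, c, hP⟩, ?_⟩
    funext I
    change P (fun l => E (I l)) = _
    rw [hP]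
    exact Finset.prod_congr rfl fun a _ => part_basis ω e jj hω (c a) (I (σ (a, 0))) (I (σ (a, 1)))
  obtain ⟨φ', hφ', hφφ⟩ := h3 h1
  rw [← hinj hφφ]
  exact hφ'

include hodd hjj hj0 hω halt in
/-- There are no forms in an odd number of variables. -/
theorem scalar_odd {s : Type} [Fintype s] [DecidableEq s] (hs : Odd (Fintype.card s))
    (φ : MultilinearMap k (fun _ : s => ∀ i, V i) k)
    (hkill : ∀ i, ∀ X ∈ SpL (ω i), Kills (piE (Pi.single i X)) φ) : φ = 0 := by
  classical
  let E : Basis (Σ i, Fin (r i + 1)) k (∀ i, V i) := Pi.basis e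
  refine Basis.ext_multilinear (fun _ => E) fun I => ?_
  rw [MultilinearMap.zero_apply]
  by_contra h0
  have hbal : ∀ y : Σ i, Fin (r i + 1), (Finset.univ.filter (fun l => I l = y)).card =
      (Finset.univ.filter (fun l => I l = iv r y)).card := by
    rintro ⟨i, a⟩
    have h1 := hkill i _ (SS_mem_SpL (ω i) (halt i) (e i a) (e i (Fin.rev a))) (fun l => E (I l))
    have h2 : ∀ l, φ (Function.update (fun l => E (I l)) l
        (piE (Pi.single i (SS (ω i) (e i a) (e i (Fin.rev a)))) (E (I l)))) =
        (jj i (Fin.rev a) * ((if I l = ⟨i, a⟩ then 1 else 0) -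
          (if I l = iv r ⟨i, a⟩ then 1 else 0))) * φ (fun l => E (I l)) := by
      intro l
      have h5 : piE (Pi.single i (SS (ω i) (e i a) (e i (Fin.rev a)))) (E (I l)) =
          JJ (iv r) (jv jj) ⟨i, a⟩ (I l) • E ⟨i, Fin.rev a⟩ +
            JJ (iv r) (jv jj) ⟨i, Fin.rev a⟩ (I l) • E ⟨i, a⟩ :=
        SS_basis ω e jj hω i a (Fin.rev a) (I l)
      have h6 : JJ (iv r) (jv jj) ⟨i, a⟩ (I l) • E ⟨i, Fin.rev a⟩ =
          (if I l = iv r ⟨i, a⟩ then jj i a else 0) • E (I l) := by
        unfold JJ
        by_cases h : I l = iv r ⟨i, a⟩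
        · rw [if_pos h, if_pos h, h]
          rfl
        · rw [if_neg h, if_neg h, zero_smul, zero_smul]
      have h7 : JJ (iv r) (jv jj) ⟨i, Fin.rev a⟩ (I l) • E ⟨i, a⟩ =
          (if I l = ⟨i, a⟩ then jj i (Fin.rev a) else 0) • E (I l) := by
        unfold JJ
        have h8 : iv r ⟨i, Fin.rev a⟩ = ⟨i, a⟩ := by simp [iv]
        rw [h8]
        by_cases h : I l = ⟨i, a⟩
        · rw [if_pos h, if_pos h, h]
          rfl
        · rw [if_neg h, if_neg h, zero_smul, zero_smul]
      rw [h5, h6, h7, ← add_smul, MultilinearMap.map_update_smul, smul_eq_mul]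
      have h9 : φ (Function.update (fun l => E (I l)) l (E (I l))) = φ (fun l => E (I l)) := by
        congr 1
        exact Function.update_eq_self l (fun l => E (I l))
      rw [h9]
      congr 1
      rw [hjj]
      split_ifs <;> ring
    rw [Finset.sum_congr rfl (fun l _ => h2 l), ← Finset.sum_mul, ← Finset.mul_sum,
      Finset.sum_sub_distrib, Finset.sum_boole, Finset.sum_boole] at h1
    have h3 := (mul_eq_zero.1 ((mul_eq_zero.1 h1).resolve_right h0)).resolve_left (hj0 i _)
    exact Nat.cast_injective (R := k) (sub_eq_zero.1 h3)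
  have h2 : Fintype.card s = ∑ y : Σ i, Fin (r i + 1),
      (Finset.univ.filter (fun l => I l = y)).card := by
    rw [← Finset.card_univ]
    exact Finset.card_eq_sum_card_fiberwise fun l _ => Finset.mem_univ _
  have h3 : ((∑ y : Σ i, Fin (r i + 1), (Finset.univ.filter (fun l => I l = y)).card : ℕ) :
      ZMod 2) = 0 := by
    rw [Nat.cast_sum]
    refine Finset.sum_involution (fun y _ => iv r y) (fun y _ => ?_)
      (fun y _ _ => iv_ne hodd y) (fun y _ => Finset.mem_univ _) (fun y _ => iv_iv y)
    rw [← hbal y, ← two_mul]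
    have : (2 : ZMod 2) = 0 := rfl
    rw [this, zero_mul]
  rw [← h2, ZMod.natCast_eq_zero_iff_even] at h3
  exact (Nat.not_even_iff_odd.2 hs) h3

end scalar

end Pool.Agent.N978.TP
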