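import Mathlib
import Pool.Agent.N978.TP.FFT

/-!
# The Tate classes on `V ^ s × W ^ b` are products
-/

set_option autoImplicit false
set_option linter.unusedSectionVars false
set_option linter.unusedVariables false

namespace Pool.Agent.N978.TP

open Module Polynomial Pool.Agent.H204R3.CM Pool.Agent.H204R3.GP Pool.Agent.H204R3.SP
  Pool.Agent.Y114.TF Pool.Agent.Y114.MU Pool.Agent.N978.HP

variable {k : Type} [Field k] [CharZero k] {ι : Type} [Fintype ι] [DecidableEq ι]
  {V : ι → Type} [∀ i, AddCommGroup (V i)] [∀ i, Module k (V i)]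
  {W : Type} [AddCommGroup W] [Module k W]
  {Γ : Type} [Group Γ] (ρ : ∀ i, Representation k Γ (V i)) (σ : Representation k Γ W)
  (κ : Γ →* k) (ω : ∀ i, V i →ₗ[k] V i →ₗ[k] k) (χ : ι → Γ →* k)

/-- The form on `(V × W) ^ (s + b)`. -/
noncomputable def big {s b : Type} (f : MultilinearMap k (fun _ : s => ∀ i, V i)
    (MultilinearMap k (fun _ : b => W) k)) :
    MultilinearMap k (fun _ : s ⊕ b => (∀ i, V i) × W) k :=
  MultilinearMap.uncurrySum (N := fun _ : s ⊕ b => (∀ i, V i) × W)
    ((MultilinearMap.compLinearMapₗ (fun _ : b => LinearMap.snd k (∀ i, V i) W)).compMultilinearMap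
      (f.compLinearMap (fun _ : s => LinearMap.fst k (∀ i, V i) W)))

theorem big_apply {s b : Type} (f : MultilinearMap k (fun _ : s => ∀ i, V i)
    (MultilinearMap k (fun _ : b => W) k)) (u : s ⊕ b → (∀ i, V i) × W) :
    big f u = f (fun l => (u (Sum.inl l)).1) (fun m => (u (Sum.inr m)).2) := rfl

theorem big_tate {s b : Type} {c : ℤ} {f : MultilinearMap k (fun _ : s => ∀ i, V i)
    (MultilinearMap k (fun _ : b => W) k)} (hf : IsTateForm (sumRep ρ) σ κ c f) :
    IsTateOn (tot ρ σ) κ c (big f) := by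
  obtain ⟨Δ, hΔ, h⟩ := hf
  exact ⟨Δ, hΔ, fun g hg u => h g hg _ _⟩

theorem kills_of_gg {s b : Type} [Fintype s] [DecidableEq s] [Fintype b] [DecidableEq b] {c : ℤ}
    {f : MultilinearMap k (fun _ : s => ∀ i, V i) (MultilinearMap k (fun _ : b => W) k)}
    (hf : IsTateForm (sumRep ρ) σ κ c f) {A : ∀ i, End k (V i)} (hA : (A, 0) ∈ gg ρ σ κ ω)
    (x : s → ∀ i, V i) : ∑ l, f (Function.update x l (piE A (x l))) = 0 := by
  ext y
  have h1 := ((mem_gg ρ σ κ ω _).1 hA).1 (s ⊕ b) inferInstance inferInstance c _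
    (big_tate ρ σ κ hf) (Sum.elim (fun l => (x l, 0)) (fun m => (0, y m)))
  rw [Fintype.sum_sum_type] at h1
  have h2 : ∀ l : s, big f (Function.update (Sum.elim (fun l => (x l, 0)) (fun m => (0, y m)))
      (Sum.inl l) (dE (A, 0) ((Sum.elim (fun l => (x l, 0)) (fun m => (0, y m)) :
        s ⊕ b → (∀ i, V i) × W) (Sum.inl l)))) = f (Function.update x l (piE A (x l))) y := by
    intro l
    rw [big_apply]
    congr 1
    · congr 1
      funext a
      by_cases ha : a = l
      · subst ha
        rw [Function.update_self, Function.update_self]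
        rfl
      · rw [Function.update_of_ne (fun h => ha (Sum.inl.inj h)), Function.update_of_ne ha]
        rfl
  have h3 : ∀ m : b, big f (Function.update (Sum.elim (fun l => (x l, 0)) (fun m => (0, y m)))
      (Sum.inr m) (dE (A, 0) ((Sum.elim (fun l => (x l, 0)) (fun m => (0, y m)) :
        s ⊕ b → (∀ i, V i) × W) (Sum.inr m)))) = 0 := by
    intro m
    rw [big_apply]
    refine MultilinearMap.map_coord_zero _ m ?_
    rw [Function.update_self]
    rfl
  rw [Finset.sum_congr rfl (fun l _ => h2 l), Finset.sum_congr rfl (fun m _ => h3 m),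
    Finset.sum_const_zero, add_zero] at h1
  rw [MultilinearMap.sum_apply, h1]
  rfl

/-- the similitude character of a product -/
theorem PP_char (hωρ : ∀ i s u v, ω i (ρ i s u) (ρ i s v) = χ i s * ω i u v) {s : Type} {m : ℕ}
    (e : Fin m × Fin 2 ≃ s) (u : Fin m → ι) {φ : MultilinearMap k (fun _ : s => ∀ i, V i) k}
    (hφ : ∀ x, φ x = ∏ l, ω (u l) (x (e (l, 0)) (u l)) (x (e (l, 1)) (u l))) (g : Γ)
    (x : s → ∀ i, V i) : φ (fun l => sumRep ρ g (x l)) = (∏ l, χ (u l) g) * φ x := by
  rw [hφ, hφ, ← Finset.prod_mul_distrib]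
  exact Finset.prod_congr rfl fun l _ => hωρ (u l) g _ _

variable {r : ι → ℕ}

/-- **The products.** -/
theorem products_of [FiniteDimensional k W] [∀ i, FiniteDimensional k (V i)]
    (hodd : ∀ i, Odd (r i)) (e : ∀ i, Basis (Fin (r i + 1)) k (V i))
    (jj : ∀ i, Fin (r i + 1) → k) (hjj : ∀ i x, jj i (Fin.rev x) = -jj i x)
    (hj0 : ∀ i x, jj i x ≠ 0) (hω : ∀ i x y, ω i (e i x) (e i y) = JJ Fin.rev (jj i) x y)
    (halt : ∀ i v, ω i v v = 0)
    (hωρ : ∀ i s u v, ω i (ρ i s u) (ρ i s v) = χ i s * ω i u v) (w : ι → ℕ)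
    (hχ : ∀ i s, χ i s * κ s ^ w i = 1)
    (hmem : ∀ i, ∀ X ∈ SpL (ω i),
      ((Pi.single i X, 0) : (∀ i, End k (V i)) × End k W) ∈ gg ρ σ κ ω) :
    TateClassesAreProducts ρ ω w σ κ := by
  classical
  intro s b c f hf
  have hkill : ∀ i, ∀ X ∈ SpL (ω i), ∀ x,
      ∑ l, f (Function.update x l (piE (Pi.single i X) (x l))) = 0 := fun i X hX x =>
    kills_of_gg ρ σ κ ω hf (hmem i X hX) x
  let bM := Module.finBasis k (MultilinearMap k (fun _ : Fin b => W) k)
  let crd : ∀ j, MultilinearMap k (fun _ : Fin s => ∀ i, V i) k := fun j =>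
    (bM.coord j).compMultilinearMap f
  have hcrd : ∀ j x, crd j x = bM.repr (f x) j := fun j x => rfl
  have hcrdk : ∀ j i, ∀ X ∈ SpL (ω i), Kills (piE (Pi.single i X)) (crd j) := by
    intro j i X hX x
    have h1 := congrArg (bM.coord j) (hkill i X hX x)
    rw [map_sum, map_zero] at h1
    exact h1
  rcases Nat.even_or_odd' s with ⟨m, hm | hm⟩
  · -- even degree
    have h1 : ∀ j, crd j ∈ Submodule.span k (PP ω (Fin s)) := fun j =>
      scalar_fft ω e jj hjj hj0 hω halt (m := m) (by rw [Fintype.card_fin, hm]) _ (hcrdk j)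
    obtain ⟨B, hBW, hBs, hBi⟩ := exists_linearIndependent k (PP ω (Fin s))
    have h2 : ∀ j, ∃ l : B →₀ k, crd j = Finsupp.linearCombination k
        ((↑) : B → MultilinearMap k (fun _ : Fin s => ∀ i, V i) k) l := by
      intro j
      have h3 := h1 j
      rw [← hBs, ← Subtype.range_coe (s := B), Finsupp.mem_span_range_iff_exists_finsupp] at h3
      obtain ⟨l, hl⟩ := h3
      exact ⟨l, by rw [← hl, Finsupp.linearCombination_apply]⟩
    choose l hl using h2
    let T : Finset B := Finset.univ.biUnion fun j => (l j).support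
    let z : B → MultilinearMap k (fun _ : Fin b => W) k := fun p => ∑ j, l j p • bM j
    have hcr : ∀ j v, crd j v =
        ∑ p ∈ T, l j p * (p : MultilinearMap k (fun _ : Fin s => ∀ i, V i) k) v := by
      intro j v
      have hsub : (l j).support ⊆ T :=
        Finset.subset_biUnion_of_mem (fun j => (l j).support) (Finset.mem_univ j)
      rw [hl j, Finsupp.linearCombination_apply, Finsupp.sum_of_support_subset (l j) hsub
        (fun p a => a • (p : MultilinearMap k (fun _ : Fin s => ∀ i, V i) k))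
        (fun p _ => zero_smul k _), MultilinearMap.sum_apply]
      rfl
    have hfv : ∀ v, f v =
        ∑ p ∈ T, (p : MultilinearMap k (fun _ : Fin s => ∀ i, V i) k) v • z p := by
      intro v
      have h3 : f v = ∑ j, crd j v • bM j := (bM.sum_repr (f v)).symm
      rw [h3]
      simp only [hcr, z, Finset.sum_smul, Finset.smul_sum]
      rw [Finset.sum_comm]
      refine Finset.sum_congr rfl fun p _ => Finset.sum_congr rfl fun j _ => ?_
      rw [smul_smul, mul_comm]
    -- the forms `z p` are Tate forms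
    obtain ⟨Δ, hΔ, hΔf⟩ := hf
    have hz : ∀ p₀ ∈ T, ∀ (m' : ℕ) (e' : Fin m' × Fin 2 ≃ Fin s) (u : Fin m' → ι),
        (∀ x, (p₀ : MultilinearMap k (fun _ : Fin s => ∀ i, V i) k) x =
          ∏ l, ω (u l) (x (e' (l, 0)) (u l)) (x (e' (l, 1)) (u l))) →
        IsTateOn σ κ (c + ∑ l, (w (u l) : ℤ)) (z p₀) := by
      intro p₀ hp₀ m' e' u hpu
      refine ⟨Δ, hΔ, fun g hg y => ?_⟩
      -- the characters
      have hch : ∀ p : B, ∃ a : k, ∀ x, (p : MultilinearMap k (fun _ : Fin s => ∀ i, V i) k)
          (fun l => sumRep ρ g (x l)) = a * (p : MultilinearMap k _ k) x := by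
        intro p
        obtain ⟨m₁, e₁, u₁, h₁⟩ := hBW p.2
        exact ⟨_, PP_char ρ ω χ hωρ e₁ u₁ h₁ g⟩
      choose a ha using hch
      -- independence
      have hind : ∀ p ∈ T, a p * z p (fun l => σ g (y l)) = κ g ^ c * z p y := by
        have h7 : ∑ p ∈ T, (a p * z p (fun l => σ g (y l)) - κ g ^ c * z p y) •
            (p : MultilinearMap k (fun _ : Fin s => ∀ i, V i) k) = 0 := by
          refine MultilinearMap.ext fun x => ?_
          rw [MultilinearMap.sum_apply, MultilinearMap.zero_apply]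
          have h4 := hΔf g hg x y
          rw [hfv, hfv, MultilinearMap.sum_apply, MultilinearMap.sum_apply] at h4
          rw [← sub_eq_zero.2 h4, Finset.mul_sum, ← Finset.sum_sub_distrib]
          refine Finset.sum_congr rfl fun p _ => ?_
          rw [MultilinearMap.smul_apply, MultilinearMap.smul_apply, MultilinearMap.smul_apply,
            ha p x, smul_eq_mul, smul_eq_mul, smul_eq_mul]
          ring
        intro p hp
        exact sub_eq_zero.1 (linearIndependent_iff'.1 hBi T _ h7 p hp)
      have h5 := hind p₀ hp₀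
      by_cases hp0 : ∃ x, (p₀ : MultilinearMap k (fun _ : Fin s => ∀ i, V i) k) x ≠ 0
      · obtain ⟨x, hx⟩ := hp0
        have h6 : a p₀ = ∏ l, χ (u l) g := by
          have h7 := PP_char ρ ω χ hωρ e' u hpu g x
          rw [ha p₀ x] at h7
          exact mul_right_cancel₀ hx h7
        have hκ0 : κ g ≠ 0 := by
          intro h
          have h1 : κ (g * g⁻¹) = 1 := by rw [mul_inv_cancel, map_one]
          rw [map_mul, h, zero_mul] at h1
          exact zero_ne_one h1
        have h8 : (∏ l, χ (u l) g) * κ g ^ (∑ l, (w (u l) : ℤ)) = 1 := by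
          have h9 : κ g ^ (∑ l, (w (u l) : ℤ)) = ∏ l, κ g ^ (w (u l)) := by
            rw [← Nat.cast_sum, zpow_natCast, Finset.prod_pow_eq_pow_sum]
          rw [h9, ← Finset.prod_mul_distrib]
          exact Finset.prod_eq_one fun l _ => hχ (u l) g
        rw [zpow_add₀ hκ0]
        have h10 : z p₀ (fun l => σ g (y l)) =
            κ g ^ (∑ l, (w (u l) : ℤ)) * (a p₀ * z p₀ (fun l => σ g (y l))) := by
          rw [← mul_assoc, h6, mul_comm (κ g ^ _), h8, one_mul]
        rw [h10, h5]
        ring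
      · exfalso
        push Not at hp0
        apply hBi.ne_zero p₀
        exact MultilinearMap.ext fun x => hp0 x
    -- the sum
    have hfs : f = ∑ p ∈ T, (LinearMap.toSpanSingleton k _ (z p)).compMultilinearMap
        (p : MultilinearMap k (fun _ : Fin s => ∀ i, V i) k) := by
      refine MultilinearMap.ext fun v => ?_
      rw [MultilinearMap.sum_apply, hfv]
      rfl
    rw [hfs]
    refine Submodule.sum_mem _ fun p hp => Submodule.subset_span ?_
    obtain ⟨m', e', u, hpu⟩ := hBW p.2
    refine ⟨m', e', u, z p, hz p hp m' e' u hpu, fun x y => ?_⟩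
    rw [← hpu]
    rfl
  · -- odd degree
    have h1 : ∀ j, crd j = 0 := fun j =>
      scalar_odd ω hodd e jj hjj hj0 hω halt (by rw [Fintype.card_fin]; exact ⟨m, hm⟩) _ (hcrdk j)
    have h2 : f = 0 := by
      refine MultilinearMap.ext fun v => ?_
      apply bM.repr.injective
      ext j
      have h3 := congrArg (fun g : MultilinearMap k (fun _ : Fin s => ∀ i, V i) k => g v) (h1 j)
      change bM.repr (f v) j = 0 at h3
      rw [h3]
      change 0 = bM.repr 0 j
      rw [map_zero, Finsupp.zero_apply]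
    rw [h2]
    exact Submodule.zero_mem _

end Pool.Agent.N978.TP
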