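import Mathlib
import Pool.Agent.N978.HP.MumFamily
import Pool.Agent.N978.TP.Products
import Pool.Agent.N978.TP.Defs

/-!
# Explicit tuples of members
-/

set_option autoImplicit false

namespace Pool.Agent.N978.TP

open NumberField IsDedekindDomain Polynomial Module Pool.Agent.Y114.TF Pool.Agent.Y114.GF
  Pool.Agent.Y114.MU Pool.Agent.N144.MS Pool.Agent.H204R3.GP Pool.Agent.R931.IR
  Pool.Agent.N978.HP
open Pool.Agent.W569.FM Pool.Agent.W571.FM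

theorem cyc_inertia {ℓ : ℕ} [hℓ : Fact ℓ.Prime] {v : HeightOneSpectrum (𝓞 ℚ)}
    {Q : Ideal (𝓞 (AlgebraicClosure ℚ))} (hQ : Q.IsPrime) (hQv : cm Q = v.asIdeal)
    (hℓv : ¬ Above v ℓ) {τ φ : Gal(AlgebraicClosure ℚ/ℚ)}
    (hτ : InInertia Q τ) (hφ : FrobAt (Ideal.absNorm v.asIdeal) Q φ) : cyc ℓ τ = 1 := by
  have h2 := (chi_inertia hQ hQv hℓv hτ hφ).2
  have h7 := congrArg (fun z : ℤ_[ℓ]ˣ => ((z : ℤ_[ℓ]) : ℚ_[ℓ])) h2
  simp only [Units.val_one, PadicInt.coe_one] at h7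
  exact h7

theorem nil_of_one {k G E : Type} [Field k] [Group G] [AddCommGroup E] [Module k E]
    (ρ : Representation k G E) {τ : G} (h : ρ τ = 1) (e : ℕ) : IsNilpotent (ρ (τ ^ e) - 1) := by
  rw [map_pow, h, one_pow, sub_self]
  exact IsNilpotent.zero

theorem pow_of_one {k G E : Type} [Field k] [Group G] [AddCommGroup E] [Module k E]
    (ρ : Representation k G E) {τ : G} (h : ρ τ = 1) (e : ℕ) {r : ℕ} (hr : r ≠ 0) :
    (ρ (τ ^ e) - 1) ^ r = 0 := by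
  rw [map_pow, h, one_pow, sub_self, zero_pow hr]

theorem char_pow {k G : Type} [Field k] [Group G] (κ : G →* k) {τ : G} (h : κ τ = 1) (e : ℕ) :
    κ (τ ^ e) = 1 := by
  rw [map_pow, h, one_pow]

section powers

variable {k G E : Type} [Field k] [CharZero k] [Group G] [AddCommGroup E] [Module k E]
  (ρ : Representation k G E) {τ : G}

theorem nil_dvd {a b : ℕ} (h : IsNilpotent (ρ (τ ^ a) - 1)) (hab : a ∣ b) :
    IsNilpotent (ρ (τ ^ b) - 1) := by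
  obtain ⟨c, rfl⟩ := hab
  rw [pow_mul, map_pow]
  exact pow_nil h c

theorem zero_dvd {a b r : ℕ} (h : (ρ (τ ^ a) - 1) ^ r = 0) (hab : a ∣ b) :
    (ρ (τ ^ b) - 1) ^ r = 0 := by
  obtain ⟨c, rfl⟩ := hab
  rw [pow_mul, map_pow]
  exact pow_zero_of h c

theorem ne_pow {b r : ℕ} (h : IsNilpotent (ρ τ - 1)) (hne : (ρ τ - 1) ^ r ≠ 0) (hb : 0 < b) :
    (ρ (τ ^ b) - 1) ^ r ≠ 0 := by
  rw [map_pow]
  exact pow_ne h hne hb

theorem nil_pow {b : ℕ} (h : IsNilpotent (ρ τ - 1)) : IsNilpotent (ρ (τ ^ b) - 1) := by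
  rw [map_pow]
  exact pow_nil h b

theorem zero_pow' {b r : ℕ} (h : (ρ τ - 1) ^ r = 0) : (ρ (τ ^ b) - 1) ^ r = 0 := by
  rw [map_pow]
  exact pow_zero_of h b

theorem ne_one_pow {b : ℕ} (h : IsNilpotent (ρ τ - 1)) (hne : ρ τ ≠ 1) (hb : 0 < b) :
    ρ (τ ^ b) ≠ 1 := by
  intro h5
  have h6 : (ρ τ - 1) ^ 1 ≠ 0 := by
    rw [pow_one]
    exact fun h7 => hne (sub_eq_zero.1 h7)
  apply ne_pow ρ h h6 hb
  rw [pow_one]
  exact sub_eq_zero.2 h5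

end powers

variable {A : Type} [Fintype A] [DecidableEq A] {ι : A → Type} [∀ a, Fintype (ι a)]
  [∀ a, DecidableEq (ι a)] {n : ∀ a, ι a → ℕ}
  {R : ∀ a, Pt → Realizations (n a) Gal(AlgebraicClosure ℚ/ℚ)} {w m c : A → ℕ}
  {D : A → MvPolynomial (Fin 2) ℤ} {P : ∀ a, ℕ → Pt → ι a → ℚ[X]}

/-- **Tate classes on the products of the powers of the members at explicit points `t a` with a
variety.** -/
theorem explicit (h : ∀ a, SymplecticFamily (R a) (w a) (m a) (c a) (D a) (P a))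
    (hn : ∀ a i, 0 < n a i) (C C' : ∀ a, ι a → MvPolynomial (Fin 2) ℤ)
    (hC : ∀ a i, MaxUnipotentCusp (R a) (m a) (D a) (C a i) i) (t : A → Pt)
    (ht : ∀ a, InU (D a) (t a)) {ℓ : ℕ} [hℓ : Fact ℓ.Prime] {W : Type} [AddCommGroup W]
    [Module ℚ_[ℓ] W] [FiniteDimensional ℚ_[ℓ] W]
    (σ : Representation ℚ_[ℓ] Gal(AlgebraicClosure ℚ/ℚ) W) (hqu : QuasiUnipotent σ)
    (h1 : ∀ a i, ∃ p : ℕ, p.Prime ∧ p ≠ ℓ ∧ ¬ p ∣ m a ∧ (p : ℤ) ∣ (t a).val (C a i) ∧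
      (∀ b, b ≠ a → GoodAt (m b) (D b) (t b) p) ∧ SmallAt σ p (n a i - 1))
    (h2 : ∀ a i, 4 ≤ n a i →
      (SmallCusp (R a) (m a) (D a) (C' a i) i ∧ ∃ p : ℕ, p.Prime ∧ p ≠ ℓ ∧ ¬ p ∣ m a ∧
        (p : ℤ) ∣ (t a).val (C' a i) ∧ ∀ b, b ≠ a → GoodAt (m b) (D b) (t b) p) ∨
      ∃ p, p ≠ ℓ ∧ GoodAt (m a) (D a) (t a) p ∧ ThreeIndependent (P a p (t a) i)) :
    TateClassesAreProducts (ι := Σ a, ι a) (fun x => (R x.1 (t x.1)).ρ ℓ x.2)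
      (fun x => (R x.1 (t x.1)).ω ℓ x.2) (fun x => w x.1) σ (cyc ℓ) := by
  classical
  have hR : ∀ a, IsSystem (R a (t a)) (w a) := fun a => (h a).system (t a) (ht a)
  have hev : ∀ a i, Even (n a i) := fun a i => even_dim (R a (t a)) ℓ i
  have hr' : ∀ x : Σ a, ι a, ∃ r, n x.1 x.2 = r + 1 ∧ Odd r := by
    intro x
    obtain ⟨a, ha⟩ := hev x.1 x.2
    have := hn x.1 x.2
    exact ⟨n x.1 x.2 - 1, by omega, ⟨a - 1, by omega⟩⟩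
  choose r hr hodd using hr'
  have hn1 : ∀ x : Σ a, ι a, n x.1 x.2 - 1 = r x := fun x => by rw [hr x]; rfl
  -- good reduction: inertia acts as the identity
  have hunr : ∀ (b : A) (p : ℕ), GoodAt (m b) (D b) (t b) p → p ≠ ℓ → ∀ v, Above v p →
      ∀ Q, PrimeOver Q v → ∀ τ, InInertiaAt Q τ → ∀ j, (R b (t b)).ρ ℓ j τ = 1 := by
    intro b p hg hpℓ v hv Q hQ τ hτ j
    exact ((h b).good (t b) p hg v hv).unramified ℓ
      (notAbove_of_ne hg.1 hℓ.out hpℓ hv) j Q hQ τ hτ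
  -- the elements of the inertia groups
  have hτ : ∀ x : Σ a, ι a, ∃ τ : Gal(AlgebraicClosure ℚ/ℚ), cyc ℓ τ = 1 ∧
      (∀ y : Σ a, ι a, (R y.1 (t y.1)).χ ℓ τ = 1) ∧
      (∀ y : Σ a, ι a, IsNilpotent ((R y.1 (t y.1)).ρ ℓ y.2 τ - 1)) ∧
      ((R x.1 (t x.1)).ρ ℓ x.2 τ - 1) ^ r x ≠ 0 ∧
      (∀ y : Σ a, ι a, x ≠ y → r y = r x → ((R y.1 (t y.1)).ρ ℓ y.2 τ - 1) ^ r y = 0) ∧
      (σ τ - 1) ^ r x = 0 := by
    rintro ⟨a, i⟩
    obtain ⟨p, hp, hpℓ, hpm, hdiv, hgood, hsm⟩ := h1 a i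
    obtain ⟨v, hv⟩ := Pool.Agent.R931.IR.exists_above hp
    obtain ⟨hmu, hdi⟩ := (hC a i).2 (t a) p (ht a) hp hpm hdiv v hv
    have hvℓ : ¬ Above v ℓ := notAbove_of_ne hp hℓ.out hpℓ hv
    obtain ⟨Q, φ, hQ, hQv, hφ⟩ := frob_cm v
    obtain ⟨hnilp, τ, hτ, hτne, -⟩ := hmu ℓ hvℓ Q ⟨hQ.isPrime, hQv⟩
    have hchi : ∀ b, (R b (t b)).χ ℓ τ = 1 := fun b =>
      (char_inertia (R b (t b)) (hR b) hQ.isPrime hQv hvℓ hτ hφ).2
    have hcyc : cyc ℓ τ = 1 := cyc_inertia hQ.isPrime hQv hvℓ hτ hφ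
    have he : ∀ y : Σ a, ι a, ∃ e : ℕ, 0 < e ∧
        IsNilpotent ((R y.1 (t y.1)).ρ ℓ y.2 (τ ^ e) - 1) ∧
        ((⟨a, i⟩ : Σ a, ι a) ≠ y → n y.1 y.2 = n a i →
          ((R y.1 (t y.1)).ρ ℓ y.2 (τ ^ e) - 1) ^ (n y.1 y.2 - 1) = 0) := by
      rintro ⟨b, j⟩
      by_cases hb : b = a
      · subst hb
        by_cases hj : j = i
        · subst hj
          exact ⟨1, Nat.one_pos, by rw [pow_one]; exact hnilp τ hτ, fun h => absurd rfl h⟩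
        · obtain ⟨e, he, h1, h2⟩ := hdi j hj ℓ hvℓ Q ⟨hQ.isPrime, hQv⟩ τ hτ
          exact ⟨e, he, h1, fun _ h => h2 h⟩
      · have h1 : (R b (t b)).ρ ℓ j τ = 1 :=
          hunr b p (hgood b hb) hpℓ v hv Q ⟨hQ.isPrime, hQv⟩ τ hτ j
        have h3 := hn1 ⟨b, j⟩
        have h4 := hodd ⟨b, j⟩
        exact ⟨1, Nat.one_pos, nil_of_one _ h1 1, fun _ _ => pow_of_one _ h1 1 (by
          rw [h3]
          exact h4.pos.ne')⟩
    choose e he0 he1 he2 using he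
    obtain ⟨e', he'0, he'⟩ := hsm v hv Q ⟨hQ.isPrime, hQv⟩ τ hτ
    refine ⟨τ ^ ((∏ y, e y) * e'), ?_, fun y => ?_, fun y => ?_, ?_, fun y hxy hry => ?_, ?_⟩
    · exact char_pow _ hcyc _
    · exact char_pow _ (hchi y.1) _
    · exact nil_dvd _ (he1 y) ((Finset.dvd_prod_of_mem e (Finset.mem_univ y)).mul_right e')
    · refine ne_pow _ (hnilp τ hτ) ?_ (Nat.mul_pos (Finset.prod_pos fun j _ => he0 j) he'0)
      have h3 := hn1 ⟨a, i⟩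
      rw [← h3]
      exact hτne
    · refine zero_dvd _ ?_ ((Finset.dvd_prod_of_mem e (Finset.mem_univ y)).mul_right e')
      rw [← hn1 y]
      exact he2 y hxy (by rw [hr y, hry]; exact (hr ⟨a, i⟩).symm)
    · refine zero_dvd _ ?_ (Dvd.intro_left _ rfl)
      rw [← hn1 ⟨a, i⟩]
      exact he'
  choose τ hτκ hτχ hτn hτne hτz hτW using hτ
  have hirr : ∀ (x : Σ a, ι a) (U : Submodule ℚ_[ℓ] (Fin (n x.1 x.2) → ℚ_[ℓ])),
      (∀ s, ∀ u ∈ U, (R x.1 (t x.1)).ρ ℓ x.2 s u ∈ U) → U = ⊥ ∨ U = ⊤ := by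
    intro x U hU
    obtain ⟨a, i⟩ := x
    have hunrp : ∀ p : ℕ, p.Prime → UnramifiedIn ℚ p := fun p hp v hv => unramified hp hv
    have hTinf : ({p : ℕ | p ≠ ℓ ∧ GoodAt (m a) (D a) (t a) p} : Set ℕ).Infinite := by
      have h3 : ({p : ℕ | p.Prime} \ ({ℓ} ∪ {p : ℕ | p.Prime ∧
          ¬ GoodAt (m a) (D a) (t a) p})).Infinite :=
        Nat.infinite_setOfPred_prime.sdiff ((Set.finite_singleton ℓ).union
          (badPrimes_finite (h a).pos (ht a)))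
      refine h3.mono ?_
      rintro p ⟨hp, hp'⟩
      exact ⟨fun h' => hp' (Or.inl h'), not_not.1 fun h' => hp' (Or.inr ⟨hp, h'⟩)⟩
    obtain ⟨p, hp, hpℓ, hpm, hdiv, -, -⟩ := h1 a i
    obtain ⟨v, hv⟩ := Pool.Agent.R931.IR.exists_above hp
    have hmu := (hC a i).2 (t a) p (ht a) hp hpm hdiv
    exact irreducible_of_mum (P := fun v => P a (q v) (t a)) (R a (t a)) (hR a)
      {p : ℕ | p ≠ ℓ ∧ GoodAt (m a) (D a) (t a) p} (by rw [hTinf.encard_eq]; exact le_top)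
      (fun p hp => ⟨hp.2.1, hp.1, hunrp p hp.2.1⟩)
      (fun p hp v hv => by
        have h3 := (h a).good (t a) p hp.2 v hv
        rwa [← q_eq hp.2.1 hv] at h3) i ⟨hp, hpℓ, hunrp p hp⟩ hv (hmu v hv).1
      (fun v hv => Or.inl (hmu v hv).1) (hn a i) U hU
  have hfrob : ∀ x : Σ a, ι a, 3 ≤ r x →
      (∃ (g : Gal(AlgebraicClosure ℚ/ℚ)) (P' : ℚ[X]), ((R x.1 (t x.1)).ρ ℓ x.2 g).charpoly =
        P'.map (algebraMap ℚ ℚ_[ℓ]) ∧ ThreeIndependent P') ∨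
      ∃ γ : Gal(AlgebraicClosure ℚ/ℚ), cyc ℓ γ = 1 ∧
        (∀ y : Σ a, ι a, (R y.1 (t y.1)).χ ℓ γ = 1) ∧
        (∀ y : Σ a, ι a, IsNilpotent ((R y.1 (t y.1)).ρ ℓ y.2 γ - 1)) ∧ IsNilpotent (σ γ - 1) ∧
        (R x.1 (t x.1)).ρ ℓ x.2 γ ≠ 1 ∧ ((R x.1 (t x.1)).ρ ℓ x.2 γ - 1) ^ r x = 0 := by
    intro x hx
    obtain ⟨a, i⟩ := x
    have h4 : 4 ≤ n a i := by
      have := hr ⟨a, i⟩
      change n a i = r ⟨a, i⟩ + 1 at this
      omega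
    rcases h2 a i h4 with ⟨hsm, p, hp, hpℓ, hpm, hdiv, hgood⟩ | ⟨p, hne, hg, h3⟩
    · right
      obtain ⟨v, hv⟩ := Pool.Agent.R931.IR.exists_above hp
      have hvℓ : ¬ Above v ℓ := notAbove_of_ne hp hℓ.out hpℓ hv
      obtain ⟨Q, φ, hQ, hQv, hφ⟩ := frob_cm v
      obtain ⟨γ, hγ, hγn, hγ1, hγ0⟩ := hsm.2 (t a) p (ht a) hp hpm hdiv v hv ℓ hvℓ Q
        ⟨hQ.isPrime, hQv⟩
      obtain ⟨e', he'0, he'⟩ := hqu v hvℓ Q ⟨hQ.isPrime, hQv⟩ γ hγ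
      refine ⟨γ ^ e', ?_, fun y => ?_, fun y => ?_, he', ?_, ?_⟩
      · exact char_pow _ (cyc_inertia hQ.isPrime hQv hvℓ hγ hφ) _
      · exact char_pow _ (char_inertia (R y.1 (t y.1)) (hR y.1) hQ.isPrime hQv hvℓ hγ hφ).2 _
      · obtain ⟨b, j⟩ := y
        by_cases hb : b = a
        · subst hb
          exact nil_pow _ (hγn j)
        · exact nil_of_one _ (hunr b p (hgood b hb) hpℓ v hv Q ⟨hQ.isPrime, hQv⟩ γ hγ j) _
      · refine ne_one_pow _ (hγn i) (fun h7 => hγ1 ?_) he'0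
        show (R a (t a)).ρ ℓ i γ = (R a (t a)).ρ ℓ i 1
        rw [map_one]
        exact h7
      · refine zero_pow' _ ?_
        rw [← hn1 ⟨a, i⟩]
        exact hγ0
    · left
      obtain ⟨v₀, hv₀⟩ := Pool.Agent.R931.IR.exists_above hg.1
      have hvℓ := notAbove_of_ne hg.1 hℓ.out hne hv₀
      obtain ⟨γ, hγ⟩ := exists_frobenius (P := fun _ => P a p (t a)) (R a (t a)) (hR a) v₀
        ((h a).good (t a) p hg v₀ hv₀)
      exact ⟨γ, P a p (t a) i, (hγ ℓ hvℓ).2 i, h3⟩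
  obtain ⟨e, jj, hjj, hj0, hω, hmem⟩ := sum_lie_W (ι := Σ a, ι a)
    (fun x => (R x.1 (t x.1)).ρ ℓ x.2) σ (cyc ℓ) (fun x => (R x.1 (t x.1)).ω ℓ x.2)
    (fun x => (R x.1 (t x.1)).χ ℓ) r (fun x => by simp [hr x]) hodd
    (fun x => (R x.1 (t x.1)).alt ℓ x.2) (fun x => (R x.1 (t x.1)).nondeg ℓ x.2)
    (fun x => (R x.1 (t x.1)).sim ℓ x.2) hirr τ hτκ (fun x y => hτχ x y) hτn hτne
    hτz hτW hfrob
  exact products_of (ι := Σ a, ι a) (fun x => (R x.1 (t x.1)).ρ ℓ x.2) σ (cyc ℓ)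
    (fun x => (R x.1 (t x.1)).ω ℓ x.2) (fun x => (R x.1 (t x.1)).χ ℓ) hodd e jj hjj hj0 hω
    (fun x => (R x.1 (t x.1)).alt ℓ x.2) (fun x => (R x.1 (t x.1)).sim ℓ x.2) (fun x => w x.1)
    (fun x s => (hR x.1).similitude ℓ s) hmem

end Pool.Agent.N978.TP
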