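import Pool.Agent.N978.TP.Stm
import Pool.Agent.N978.HP.Basic

/-!
# Tuples of points: a property of one coordinate, and two properties
-/

set_option autoImplicit false

namespace Pool.Agent.N978.TP

open Filter Topology Pool.Agent.N978.HP

namespace T12

theorem card_pi_prop {A : Type} [Fintype A] (P : A → Pt → Prop) :
    Nat.card {t : A → Pt // ∀ b, P b (t b)} = ∏ b, Nat.card {x : Pt // P b x} := by
  rw [← Nat.card_pi]
  exact Nat.card_congr Equiv.subtypePiEquivPi

theorem card_tuples {A : Type} [Fintype A] [DecidableEq A] (a : A) (B : Pt → Prop) (H : ℕ) :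
    Nat.card {t : A → Pt // (∀ b, (t b).height ≤ H) ∧ ¬ B (t a)} =
      Nat.card {x : Pt // x.height ≤ H ∧ ¬ B x} *
        ∏ _b ∈ Finset.univ.erase a, Nat.card {x : Pt // x.height ≤ H} := by
  have h1 : ∀ t : A → Pt, ((∀ b, (t b).height ≤ H) ∧ ¬ B (t a)) ↔
      ∀ b, (t b).height ≤ H ∧ (b = a → ¬ B (t b)) := by
    intro t
    constructor
    · rintro ⟨h2, h3⟩ b
      refine ⟨h2 b, ?_⟩
      rintro rfl
      exact h3
    · intro h
      exact ⟨fun b => (h b).1, (h a).2 rfl⟩
  rw [Nat.card_congr (Equiv.subtypeEquivRight h1),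
    card_pi_prop fun b x => x.height ≤ H ∧ (b = a → ¬ B x),
    ← Finset.mul_prod_erase Finset.univ _ (Finset.mem_univ a)]
  congr 1
  · exact Nat.card_congr (Equiv.subtypeEquivRight fun x => by simp)
  · refine Finset.prod_congr rfl fun b hb => ?_
    exact Nat.card_congr (Equiv.subtypeEquivRight fun x => by simp [(Finset.mem_erase.1 hb).1])

theorem card_all {A : Type} [Fintype A] [DecidableEq A] (a : A) (H : ℕ) :
    Nat.card {t : A → Pt // ∀ b, (t b).height ≤ H} =
      Nat.card {x : Pt // x.height ≤ H} *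
        ∏ _b ∈ Finset.univ.erase a, Nat.card {x : Pt // x.height ≤ H} := by
  rw [card_pi_prop fun _ x => x.height ≤ H, ← Finset.mul_prod_erase Finset.univ _ (Finset.mem_univ a)]

theorem finite_tuples {A : Type} [Fintype A] (H : ℕ) :
    Finite {t : A → Pt // ∀ b, (t b).height ≤ H} := by
  have := finite_height H
  have e : {t : A → Pt // ∀ b, (t b).height ≤ H} ≃ (A → {x : Pt // x.height ≤ H}) :=
    Equiv.subtypePiEquivPi (p := fun (_ : A) (x : Pt) => x.height ≤ H)
  exact Finite.of_equiv _ e.symm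

end T12

theorem t1 : S_T1 := by
  classical
  intro A _ a B hB
  unfold AlmostAllTuples
  unfold AlmostAll at hB
  refine hB.congr fun H => ?_
  rw [T12.card_tuples a B H, T12.card_all a H]
  push_cast
  by_cases h0 : ∏ _b ∈ Finset.univ.erase a, (Nat.card {x : Pt // x.height ≤ H} : ℝ) = 0
  · obtain ⟨b, _, h1⟩ := Finset.prod_eq_zero_iff.1 h0
    rw [h1, div_zero, zero_mul, div_zero]
  · rw [mul_div_mul_right _ _ h0]

theorem t2 : S_T2 := by
  intro A _ B B' hB hB'
  unfold AlmostAllTuples at *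
  have hsum := hB.add hB'
  rw [add_zero] at hsum
  refine squeeze_zero (fun H => by positivity) (fun H => ?_) hsum
  rw [← add_div]
  refine div_le_div_of_nonneg_right ?_ (by positivity)
  have card_eq : ∀ P : (A → Pt) → Prop, Nat.card {t : A → Pt // P t} = ({t | P t} : Set (A → Pt)).ncard :=
    fun P => rfl
  rw [card_eq, card_eq, card_eq]
  have hsub : ({t : A → Pt | (∀ a, (t a).height ≤ H) ∧ ¬ (B t ∧ B' t)} : Set (A → Pt)) ⊆
      {t : A → Pt | (∀ a, (t a).height ≤ H) ∧ ¬ B t} ∪
        {t : A → Pt | (∀ a, (t a).height ≤ H) ∧ ¬ B' t} := by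
    rintro t ⟨ht, hn⟩
    by_cases h : B t
    · exact Or.inr ⟨ht, fun hb => hn ⟨h, hb⟩⟩
    · exact Or.inl ⟨ht, h⟩
  have hfin0 : ({t : A → Pt | ∀ a, (t a).height ≤ H} : Set (A → Pt)).Finite :=
    Set.finite_coe_iff.1 (T12.finite_tuples H)
  have hfin : ({t : A → Pt | (∀ a, (t a).height ≤ H) ∧ ¬ B t} ∪
      {t : A → Pt | (∀ a, (t a).height ≤ H) ∧ ¬ B' t} : Set (A → Pt)).Finite :=
    hfin0.subset (Set.union_subset (fun t ht => ht.1) fun t ht => ht.1)
  have h3 := (Set.ncard_le_ncard hsub hfin).trans (Set.ncard_union_le _ _)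
  exact_mod_cast h3

end Pool.Agent.N978.TP
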