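import Mathlib
import Pool.Agent.N978.TP.Stm
import Pool.Agent.N978.HP.Basic

/-!
# TP/3 (helper225): primes for one coordinate which are good for the other coordinates
-/

set_option autoImplicit false

namespace Pool.Agent.N978.TP.T3

open Filter Topology Pool.Agent.N978.HP

/-- Double counting: a relation between the coordinates `a` and `b`. -/
theorem count_two {A S : Type} [Fintype A] [DecidableEq A] [Finite S] (a b : A) (hab : a ≠ b)
    (R : S → S → Prop) (M : ℝ) (hM : ∀ x, (Nat.card {y : S // R x y} : ℝ) ≤ M) :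
    (Nat.card {t : A → S // R (t a) (t b)} : ℝ) * (Nat.card S : ℝ) ≤
      (Nat.card (A → S) : ℝ) * M := by
  classical
  have hf := Fintype.ofFinite S
  have h1 : Nat.card ({t : A → S // R (t a) (t b)} × S) ≤
      Nat.card {z : (A → S) × S // R (z.1 a) z.2} := by
    refine Nat.card_le_card_of_injective (fun q => ⟨(Function.update q.1.1 b q.2, q.1.1 b), ?_⟩) ?_
    · show R (Function.update q.1.1 b q.2 a) (q.1.1 b)
      rw [Function.update_of_ne hab]
      exact q.1.2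
    · rintro ⟨⟨t, ht⟩, y⟩ ⟨⟨t', ht'⟩, y'⟩ h
      simp only [Subtype.mk.injEq, Prod.mk.injEq] at h
      obtain ⟨h2, h3⟩ := h
      have h4 : y = y' := by
        have := congrFun h2 b
        simpa using this
      have h5 : t = t' := by
        funext c
        rcases eq_or_ne c b with rfl | hc
        · exact h3
        · have := congrFun h2 c
          rwa [Function.update_of_ne hc, Function.update_of_ne hc] at this
      subst h4
      subst h5
      rfl
  have h2 : Nat.card {z : (A → S) × S // R (z.1 a) z.2} =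
      ∑ t : A → S, Nat.card {y : S // R (t a) y} := by
    rw [Nat.card_congr (Equiv.subtypeProdEquivSigmaSubtype
      (fun (t : A → S) (y : S) => R (t a) y)), Nat.card_sigma]
  rw [Nat.card_prod, h2] at h1
  have h3 : ((∑ t : A → S, Nat.card {y : S // R (t a) y} : ℕ) : ℝ) ≤
      (Nat.card (A → S) : ℝ) * M := by
    push_cast
    calc ∑ t : A → S, (Nat.card {y : S // R (t a) y} : ℝ) ≤ ∑ _t : A → S, M :=
          Finset.sum_le_sum fun t _ => hM (t a)
      _ = _ := by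
          rw [Finset.sum_const, nsmul_eq_mul, Finset.card_univ, Nat.card_eq_fintype_card]
  refine le_trans ?_ h3
  exact_mod_cast h1

/-- Tuples of points of height at most `H`. -/
def eqv {A : Type} (H : ℕ) (Q : (A → Pt) → Prop) :
    {t : A → Pt // (∀ a, (t a).height ≤ H) ∧ Q t} ≃
      {t : A → {x : Pt // x.height ≤ H} // Q fun a => (t a).1} where
  toFun t := ⟨fun a => ⟨t.1 a, t.2.1 a⟩, t.2.2⟩
  invFun t := ⟨fun a => (t.1 a).1, fun a => (t.1 a).2, t.2⟩
  left_inv _ := rfl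
  right_inv _ := rfl

/-- Tuples of points of height at most `H`. -/
def eqv' (A : Type) (H : ℕ) :
    {t : A → Pt // ∀ a, (t a).height ≤ H} ≃ (A → {x : Pt // x.height ≤ H}) where
  toFun t := fun a => ⟨t.1 a, t.2 a⟩
  invFun t := ⟨fun a => (t a).1, fun a => (t a).2⟩
  left_inv _ := rfl
  right_inv _ := rfl

theorem card_pos_height (H : ℕ) (hH : 0 < H) : 0 < Nat.card {t : Pt // t.height ≤ H} := by
  have := finite_height H
  rw [Nat.card_pos_iff]
  exact ⟨⟨⟨⟨1, 0, isCoprime_one_left⟩, by simp only [Pt.height]; simp; omega⟩⟩, this⟩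

/-- union bound for a finite set of primes -/
theorem card_union {S : Type} [Finite S] (F : Finset ℕ) (Z : ℕ → S → Prop) (M : ℝ)
    (hM : ∀ p ∈ F, (Nat.card {y : S // Z p y} : ℝ) ≤ M) :
    (Nat.card {y : S // ∃ p ∈ F, Z p y} : ℝ) ≤ (F.card : ℝ) * M := by
  classical
  have hf := Fintype.ofFinite S
  have h1 : Nat.card {y : S // ∃ p ∈ F, Z p y} ≤ ∑ p ∈ F, Nat.card {y : S // Z p y} := by
    have h2 : ∀ Q : S → Prop, Nat.card {y : S // Q y} = (Set.toFinite {y : S | Q y}).toFinset.card := by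
      intro Q
      rw [← Set.ncard_eq_toFinset_card]
      rfl
    rw [h2]
    simp only [h2]
    refine le_trans (Finset.card_le_card ?_) Finset.card_biUnion_le
    intro y hy
    rw [Set.Finite.mem_toFinset] at hy
    obtain ⟨p, hp, hy⟩ := hy
    rw [Finset.mem_biUnion]
    exact ⟨p, hp, by rw [Set.Finite.mem_toFinset]; exact hy⟩
  calc (Nat.card {y : S // ∃ p ∈ F, Z p y} : ℝ) ≤ ((∑ p ∈ F, Nat.card {y : S // Z p y} : ℕ) : ℝ) :=
        by exact_mod_cast h1
    _ = ∑ p ∈ F, (Nat.card {y : S // Z p y} : ℝ) := by push_cast; rfl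
    _ ≤ ∑ _p ∈ F, M := Finset.sum_le_sum hM
    _ = _ := by rw [Finset.sum_const, nsmul_eq_mul]

/-- The second kind of bad tuples. -/
theorem bad_two {A : Type} [Fintype A] [DecidableEq A] (a b : A) (hab : a ≠ b)
    (D : MvPolynomial (Fin 2) ℤ) (C : ℝ) (hC : 0 ≤ C) (P₁ : ℕ) (hP : 0 < P₁)
    (hD : ∀ p H : ℕ, p.Prime → P₁ ≤ p → 0 < H →
    (Nat.card {t : Pt // t.height ≤ H ∧ (p : ℤ) ∣ t.val D} : ℝ) ≤
      C * (1 / (p : ℝ) + 1 / (H : ℝ)) * (Nat.card {t : Pt // t.height ≤ H} : ℝ))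
    (k : ℕ) (F : Pt → Finset ℕ) (hF : ∀ x, (F x).card ≤ k)
    (hF' : ∀ x, ∀ p ∈ F x, p.Prime ∧ P₁ ≤ p) (H : ℕ) (hH : 0 < H) :
    (Nat.card {t : A → Pt // (∀ a, (t a).height ≤ H) ∧
      ∃ p ∈ F (t a), (p : ℤ) ∣ (t b).val D} : ℝ) ≤
      (k * C * (1 / (P₁ : ℝ) + 1 / (H : ℝ))) *
        (Nat.card {t : A → Pt // ∀ a, (t a).height ≤ H} : ℝ) := by
  have hfin := finite_height H
  have hpos : (0 : ℝ) < (Nat.card {t : Pt // t.height ≤ H} : ℝ) := by
    exact_mod_cast card_pos_height H hH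
  rw [Nat.card_congr (eqv H fun t => ∃ p ∈ F (t a), (p : ℤ) ∣ (t b).val D),
    Nat.card_congr (eqv' A H)]
  have hP' : (0 : ℝ) < P₁ := by exact_mod_cast hP
  have hH' : (0 : ℝ) < H := by exact_mod_cast hH
  have h1 := count_two a b hab (fun x y : {t : Pt // t.height ≤ H} =>
    ∃ p ∈ F x.1, (p : ℤ) ∣ y.1.val D)
    ((k * C * (1 / (P₁ : ℝ) + 1 / (H : ℝ))) * (Nat.card {t : Pt // t.height ≤ H} : ℝ)) (by
      intro x
      refine (card_union (F x.1) (fun p (y : {t : Pt // t.height ≤ H}) => (p : ℤ) ∣ y.1.val D)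
        (C * (1 / (P₁ : ℝ) + 1 / (H : ℝ)) * (Nat.card {t : Pt // t.height ≤ H} : ℝ)) ?_).trans ?_
      · intro p hp
        obtain ⟨hp1, hp2⟩ := hF' x.1 p hp
        have h2 := hD p H hp1 hp2 hH
        have h3 : Nat.card {y : {t : Pt // t.height ≤ H} // (p : ℤ) ∣ y.1.val D} =
            Nat.card {t : Pt // t.height ≤ H ∧ (p : ℤ) ∣ t.val D} :=
          Nat.card_congr (Equiv.subtypeSubtypeEquivSubtypeInter (fun t : Pt => t.height ≤ H)
            (fun t : Pt => (p : ℤ) ∣ t.val D))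
        rw [h3]
        refine h2.trans ?_
        have h4 : (1 : ℝ) / p ≤ 1 / P₁ :=
          one_div_le_one_div_of_le hP' (by exact_mod_cast hp2)
        gcongr
      · have h5 : ((F x.1).card : ℝ) ≤ k := by exact_mod_cast hF x.1
        have h6 : 0 ≤ C * (1 / (P₁ : ℝ) + 1 / (H : ℝ)) *
          (Nat.card {t : Pt // t.height ≤ H} : ℝ) := by positivity
        calc _ ≤ (k : ℝ) * (C * (1 / (P₁ : ℝ) + 1 / (H : ℝ)) *
              (Nat.card {t : Pt // t.height ≤ H} : ℝ)) := mul_le_mul_of_nonneg_right h5 h6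
          _ = _ := by ring)
  have h7 : (Nat.card (A → {t : Pt // t.height ≤ H}) : ℝ) *
      ((k * C * (1 / (P₁ : ℝ) + 1 / (H : ℝ))) * (Nat.card {t : Pt // t.height ≤ H} : ℝ)) =
      ((k * C * (1 / (P₁ : ℝ) + 1 / (H : ℝ))) *
        (Nat.card (A → {t : Pt // t.height ≤ H}) : ℝ)) *
        (Nat.card {t : Pt // t.height ≤ H} : ℝ) := by ring
  rw [h7] at h1
  exact le_of_mul_le_mul_right h1 hpos

theorem finite_tuples (A : Type) [Fintype A] (H : ℕ) :
    Finite {t : A → Pt // ∀ a, (t a).height ≤ H} := by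
  have := finite_height H
  exact Finite.of_equiv _ (eqv' A H).symm

end Pool.Agent.N978.TP.T3

namespace Pool.Agent.N978.TP

open Filter Topology Pool.Agent.N978.HP

theorem t3 (hCN : S_CN) (h1 : S_T1) : S_T3 := by
  classical
  intro A _ _ a D hD1 hD2 k B hB
  choose C P hCP using fun b => hCN (D b) (hD1 b) (hD2 b)
  -- one constant
  obtain ⟨C', hC0, hC'⟩ : ∃ C' : ℝ, 0 ≤ C' ∧ ∀ b, C b ≤ C' := by
    refine ⟨∑ b, |C b|, Finset.sum_nonneg fun b _ => abs_nonneg _, fun b => ?_⟩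
    exact (le_abs_self _).trans
      (Finset.single_le_sum (f := fun b => |C b|) (fun b _ => abs_nonneg _) (Finset.mem_univ b))
  obtain ⟨P', hP'⟩ : ∃ P' : ℕ, ∀ b, P b ≤ P' :=
    ⟨∑ b, P b, fun b => Finset.single_le_sum (f := P) (fun b _ => Nat.zero_le _)
      (Finset.mem_univ b)⟩
  unfold AlmostAllTuples
  rw [Metric.tendsto_atTop]
  intro ε hε
  -- the bound of the primes
  set K : ℝ := (Fintype.card A : ℝ) * (k * C') with hK
  have hK0 : 0 ≤ K := by positivity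
  obtain ⟨n, hn⟩ := exists_nat_gt (3 * K / ε)
  set P₁ : ℕ := max (max P' 1) n with hP₁
  have hP₁1 : 0 < P₁ := lt_of_lt_of_le Nat.one_pos ((le_max_right _ _).trans (le_max_left _ _))
  have hP₁r : (0 : ℝ) < P₁ := by exact_mod_cast hP₁1
  have hP₁2 : ∀ b, P b ≤ P₁ := fun b => (hP' b).trans ((le_max_left _ _).trans (le_max_left _ _))
  have hP₁3 : (n : ℝ) ≤ P₁ := by exact_mod_cast le_max_right _ _
  have hsmall : K * (1 / (P₁ : ℝ)) < ε / 3 := by
    rw [mul_one_div, div_lt_iff₀ hP₁r]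
    have h2 : 3 * K / ε < P₁ := hn.trans_le hP₁3
    rw [div_lt_iff₀ hε] at h2
    nlinarith
  -- the primes of a point
  set G : Pt → Prop := fun t => ∃ F : Finset ℕ, k ≤ F.card ∧ ∀ p ∈ F, p.Prime ∧ P₁ ≤ p ∧ B p t
    with hG
  have hF : ∀ x : Pt, ∃ F : Finset ℕ, F.card ≤ k ∧ (∀ p ∈ F, p.Prime ∧ P₁ ≤ p) ∧
      (G x → k ≤ F.card ∧ ∀ p ∈ F, B p x) := by
    intro x
    by_cases hx : G x
    · obtain ⟨F, hF1, hF2⟩ := hx
      obtain ⟨F', hF', hF''⟩ := Finset.exists_subset_card_eq hF1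
      exact ⟨F', hF''.le, fun p hp => ⟨(hF2 p (hF' hp)).1, (hF2 p (hF' hp)).2.1⟩,
        fun _ => ⟨hF''.ge, fun p hp => (hF2 p (hF' hp)).2.2⟩⟩
    · exact ⟨∅, by simp, by simp, fun h => absurd h hx⟩
  choose F hF1 hF2 hF3 using hF
  have h2 := h1 A a G (hB P₁)
  unfold AlmostAllTuples at h2
  rw [Metric.tendsto_atTop] at h2
  obtain ⟨N₁, hN₁⟩ := h2 (ε / 3) (by positivity)
  obtain ⟨m, hm⟩ := exists_nat_gt (3 * K / ε)
  refine ⟨max (max N₁ m) 1, fun H hH => ?_⟩
  have hH1 : N₁ ≤ H := ((le_max_left _ _).trans (le_max_left _ _)).trans hH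
  have hH2 : m ≤ H := ((le_max_right _ _).trans (le_max_left _ _)).trans hH
  have hH3 : 0 < H := lt_of_lt_of_le Nat.one_pos ((le_max_right _ _).trans hH)
  have hHr : (0 : ℝ) < H := by exact_mod_cast hH3
  have hsmall2 : K * (1 / (H : ℝ)) < ε / 3 := by
    rw [mul_one_div, div_lt_iff₀ hHr]
    have h2 : 3 * K / ε < H := hm.trans_le (by exact_mod_cast hH2)
    rw [div_lt_iff₀ hε] at h2
    nlinarith
  have h3 := hN₁ H hH1
  rw [Real.dist_eq, sub_zero, abs_of_nonneg (by positivity)] at h3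
  rw [Real.dist_eq, sub_zero, abs_of_nonneg (by positivity)]
  have hfin := T3.finite_tuples A H
  set T : ℕ := Nat.card {t : A → Pt // ∀ a, (t a).height ≤ H} with hT
  have hTpos : (0 : ℝ) < T := by
    have h4 : 0 < T := by
      rw [hT, Nat.card_congr (T3.eqv' A H), Nat.card_pos_iff]
      have hfin' := finite_height H
      have hne := (Nat.card_pos_iff.1 (T3.card_pos_height H hH3)).1
      exact ⟨inferInstance, inferInstance⟩
    exact_mod_cast h4
  rw [div_lt_iff₀ hTpos] at h3 ⊢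
  -- the count
  have hle : Nat.card {t : A → Pt // (∀ a, (t a).height ≤ H) ∧ ¬ ∃ F : Finset ℕ, k ≤ F.card ∧
      ∀ p ∈ F, p.Prime ∧ B p (t a) ∧ ∀ b, b ≠ a → ¬ (p : ℤ) ∣ (t b).val (D b)} ≤
      Nat.card {t : A → Pt // (∀ a, (t a).height ≤ H) ∧ ¬ G (t a)} +
      ∑ b ∈ Finset.univ.filter (fun b => b ≠ a), Nat.card {t : A → Pt // (∀ a, (t a).height ≤ H) ∧
        ∃ p ∈ F (t a), (p : ℤ) ∣ (t b).val (D b)} := by
    have hft : ∀ Q : (A → Pt) → Prop,
        {t : A → Pt | (∀ a, (t a).height ≤ H) ∧ Q t}.Finite := by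
      intro Q
      have : {t : A → Pt | ∀ a, (t a).height ≤ H}.Finite := hfin
      exact this.subset fun t ht => ht.1
    have h5 : ∀ Q : (A → Pt) → Prop, Nat.card {t : A → Pt // (∀ a, (t a).height ≤ H) ∧ Q t} =
        (hft Q).toFinset.card := by
      intro Q
      rw [← Set.ncard_eq_toFinset_card _ (hft Q)]
      rfl
    rw [h5, h5]
    simp only [h5]
    refine le_trans (Finset.card_le_card (t := (hft fun t => ¬ G (t a)).toFinset ∪
      (Finset.univ.filter (fun b => b ≠ a)).biUnion fun b =>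
        (hft fun t => ∃ p ∈ F (t a), (p : ℤ) ∣ (t b).val (D b)).toFinset) ?_)
      ((Finset.card_union_le _ _).trans (Nat.add_le_add_left Finset.card_biUnion_le _))
    intro t ht
    rw [Set.Finite.mem_toFinset] at ht
    obtain ⟨ht1, ht2⟩ := ht
    rw [Finset.mem_union]
    by_cases hGt : G (t a)
    · right
      by_contra hcon
      refine ht2 ⟨F (t a), (hF3 _ hGt).1, fun p hp => ⟨(hF2 _ p hp).1, (hF3 _ hGt).2 p hp,
        fun b hb hdvd => hcon ?_⟩⟩
      rw [Finset.mem_biUnion]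
      refine ⟨b, Finset.mem_filter.2 ⟨Finset.mem_univ _, hb⟩, ?_⟩
      rw [Set.Finite.mem_toFinset]
      exact ⟨ht1, p, hp, hdvd⟩
    · left
      rw [Set.Finite.mem_toFinset]
      exact ⟨ht1, hGt⟩
  have hle' : (Nat.card {t : A → Pt // (∀ a, (t a).height ≤ H) ∧ ¬ ∃ F : Finset ℕ, k ≤ F.card ∧
      ∀ p ∈ F, p.Prime ∧ B p (t a) ∧ ∀ b, b ≠ a → ¬ (p : ℤ) ∣ (t b).val (D b)} : ℝ) ≤
      (Nat.card {t : A → Pt // (∀ a, (t a).height ≤ H) ∧ ¬ G (t a)} : ℝ) +
      ∑ b ∈ Finset.univ.filter (fun b => b ≠ a),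
        (Nat.card {t : A → Pt // (∀ a, (t a).height ≤ H) ∧
        ∃ p ∈ F (t a), (p : ℤ) ∣ (t b).val (D b)} : ℝ) := by exact_mod_cast hle
  refine hle'.trans_lt ?_
  have h6 : ∑ b ∈ Finset.univ.filter (fun b => b ≠ a),
        (Nat.card {t : A → Pt // (∀ a, (t a).height ≤ H) ∧
        ∃ p ∈ F (t a), (p : ℤ) ∣ (t b).val (D b)} : ℝ) ≤
        K * (1 / (P₁ : ℝ) + 1 / (H : ℝ)) * T := by
    have h7 : ∀ b ∈ Finset.univ.filter (fun b => b ≠ a),
        (Nat.card {t : A → Pt // (∀ a, (t a).height ≤ H) ∧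
        ∃ p ∈ F (t a), (p : ℤ) ∣ (t b).val (D b)} : ℝ) ≤
        (k * C' * (1 / (P₁ : ℝ) + 1 / (H : ℝ))) * T := by
      intro b hb
      have hb' : a ≠ b := (Finset.mem_filter.1 hb).2.symm
      refine T3.bad_two a b hb' (D b) C' hC0 P₁ hP₁1 ?_ k F hF1 hF2 H hH3
      intro p H' hp hp' hH'
      refine (hCP b p H' hp ((hP₁2 b).trans hp') hH').trans ?_
      have h8 := hC' b
      gcongr
    refine (Finset.sum_le_sum h7).trans ?_
    rw [Finset.sum_const, nsmul_eq_mul]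
    have h9 : (((Finset.univ.filter (fun b => b ≠ a)).card : ℕ) : ℝ) ≤ (Fintype.card A : ℝ) := by
      exact_mod_cast Finset.card_le_univ _
    have h10 : 0 ≤ (k * C' * (1 / (P₁ : ℝ) + 1 / (H : ℝ))) * (T : ℝ) := by positivity
    calc _ ≤ (Fintype.card A : ℝ) * ((k * C' * (1 / (P₁ : ℝ) + 1 / (H : ℝ))) * (T : ℝ)) :=
          mul_le_mul_of_nonneg_right h9 h10
      _ = _ := by rw [hK]; ring
  have h11 : K * (1 / (P₁ : ℝ) + 1 / (H : ℝ)) * T < (2 * ε / 3) * T := by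
    apply mul_lt_mul_of_pos_right _ hTpos
    have : K * (1 / (P₁ : ℝ) + 1 / (H : ℝ)) = K * (1 / (P₁ : ℝ)) + K * (1 / (H : ℝ)) := by ring
    rw [this]
    linarith
  nlinarith

end Pool.Agent.N978.TP
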