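import Pool.Agent.N978.TP.Explicit
import Pool.Agent.N978.TP.T12
import Pool.Agent.N978.TP.T3

/-!
# 100 percent of the tuples
-/

set_option autoImplicit false

namespace Pool.Agent.N978.TP

open NumberField IsDedekindDomain Polynomial Module Filter Topology Pool.Agent.Y114.TF
  Pool.Agent.Y114.GF Pool.Agent.Y114.MU Pool.Agent.N978.HP

theorem tuples_mono {A : Type} [Fintype A] {B B' : (A → Pt) → Prop} (hB : AlmostAllTuples B)
    (h : ∀ t, B t → B' t) : AlmostAllTuples B' := by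
  refine squeeze_zero (fun H => by positivity) (fun H => ?_) hB
  have hf : Finite {t : A → Pt // (∀ a, (t a).height ≤ H) ∧ ¬ B t} :=
    finite_of_imp (T12.finite_tuples H) fun t ht => ht.1
  apply div_le_div_of_nonneg_right _ (Nat.cast_nonneg _)
  have h1 : Nat.card {t : A → Pt // (∀ a, (t a).height ≤ H) ∧ ¬ B' t} ≤
      Nat.card {t : A → Pt // (∀ a, (t a).height ≤ H) ∧ ¬ B t} :=
    card_le_of_imp hf fun t ht => ⟨ht.1, fun hB => ht.2 (h t hB)⟩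
  exact_mod_cast h1

/-- Finitely many properties. -/
theorem tuples_forall (h2 : S_T2) {A κ : Type} [Fintype A] [Finite κ] {B : κ → (A → Pt) → Prop}
    (hB : ∀ i, AlmostAllTuples (B i)) : AlmostAllTuples fun t => ∀ i, B i t := by
  classical
  have hf : Fintype κ := Fintype.ofFinite κ
  have h0 : AlmostAllTuples fun _ : A → Pt => True := by
    unfold AlmostAllTuples
    simp
  have h1 : ∀ F : Finset κ, AlmostAllTuples fun t => ∀ i ∈ F, B i t := by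
    intro F
    induction F using Finset.induction_on with
    | empty => exact tuples_mono h0 fun t _ i hi => absurd hi (Finset.notMem_empty i)
    | insert a F ha ih =>
      refine tuples_mono (h2 A _ _ (hB a) ih) ?_
      rintro t ⟨h2, h3⟩ i hi
      rcases Finset.mem_insert.1 hi with rfl | hi
      · exact h2
      · exact h3 i hi
  exact tuples_mono (h1 Finset.univ) fun t h i => h i (Finset.mem_univ i)

/-- a prime number in `F` outside of a small set -/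
theorem exists_outside {F : Finset ℕ} {K : ℕ} (hF : K + 2 ≤ F.card)
    (ℓ : ℕ) {B : Set ℕ} (hB : B.encard ≤ K) : ∃ p ∈ F, p ≠ ℓ ∧ p ∉ B := by
  classical
  by_contra hcon
  push Not at hcon
  have hBfin : B.Finite := Set.finite_of_encard_le_coe hB
  have h1 : F ⊆ insert ℓ hBfin.toFinset := by
    intro p hp
    by_cases h : p = ℓ
    · exact Finset.mem_insert.2 (Or.inl h)
    · exact Finset.mem_insert.2 (Or.inr (hBfin.mem_toFinset.2 (hcon p hp h)))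
  have h2 := Finset.card_le_card h1
  have h3 : hBfin.toFinset.card ≤ K := by
    have h4 := hB
    rw [hBfin.encard_eq_coe_toFinset_card] at h4
    exact_mod_cast h4
  have h5 := Finset.card_insert_le ℓ hBfin.toFinset
  omega

variable {A : Type} [Fintype A] [DecidableEq A] {ι : A → Type} [∀ a, Fintype (ι a)]
  [∀ a, DecidableEq (ι a)] {n : ∀ a, ι a → ℕ}
  {R : ∀ a, Pt → Realizations (n a) Gal(AlgebraicClosure ℚ/ℚ)} {w m c : A → ℕ}
  {D : A → MvPolynomial (Fin 2) ℤ} {P : ∀ a, ℕ → Pt → ι a → ℚ[X]}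

/-- The sieve for one cusp of one of the families. -/
theorem sieve_cusp (hSV : S_SV) (hDV : S_DV) (hT3 : S_T3)
    (h : ∀ a, SymplecticFamily (R a) (w a) (m a) (c a) (D a) (P a)) (a : A)
    {C : MvPolynomial (Fin 2) ℤ} (hC : ∃ d, 0 < d ∧ C.IsHomogeneous d) (k : ℕ) :
    AlmostAllTuples fun t : A → Pt => ∃ F : Finset ℕ, k ≤ F.card ∧ ∀ p ∈ F, p.Prime ∧
      (∀ b, ¬ p ∣ m b) ∧ (p : ℤ) ∣ (t a).val C ∧ ∀ b, b ≠ a → GoodAt (m b) (D b) (t b) p := by
  have hM : 0 < ∏ b, m b := Finset.prod_pos fun b _ => (h b).pos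
  refine tuples_mono (hT3 A a D (fun b => (h b).form) (fun b => (h b).nonempty) k
    (fun p t => ¬ p ∣ ∏ b, m b ∧ (p : ℤ) ∣ t.val C) fun P₀ => ?_) ?_
  · refine almostAll_mono (sieve_zeros hSV hDV hC
      (Nat.mul_pos hM (Nat.factorial_pos P₀)) k) ?_
    rintro t ⟨F, hF, hFp⟩
    refine ⟨F, hF, fun p hp => ?_⟩
    obtain ⟨hpp, hpm, hdiv⟩ := hFp p hp
    refine ⟨hpp, ?_, fun h' => hpm (h'.mul_right _), hdiv⟩
    by_contra hlt
    exact hpm (Dvd.dvd.mul_left (Nat.dvd_factorial hpp.pos (by omega)) _)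
  · rintro t ⟨F, hF, hFp⟩
    refine ⟨F, hF, fun p hp => ?_⟩
    obtain ⟨hpp, ⟨hpM, hdiv⟩, hgood⟩ := hFp p hp
    have hpm : ∀ b, ¬ p ∣ m b := fun b h' =>
      hpM (h'.trans (Finset.dvd_prod_of_mem m (Finset.mem_univ b)))
    exact ⟨hpp, hpm, hdiv, fun b hb => ⟨hpp, hpm b, hgood b hb⟩⟩

/-- **100 percent of the tuples of members.** -/
theorem main (hSV : S_SV) (hDV : S_DV) (hT1 : S_T1) (hT2 : S_T2) (hT3 : S_T3)
    (h : ∀ a, SymplecticFamily (R a) (w a) (m a) (c a) (D a) (P a))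
    (hn : ∀ a i, 0 < n a i) (C C' : ∀ a, ι a → MvPolynomial (Fin 2) ℤ)
    (hC : ∀ a i, MaxUnipotentCusp (R a) (m a) (D a) (C a i) i)
    (hC' : ∀ a i, 4 ≤ n a i → SmallCusp (R a) (m a) (D a) (C' a i) i ∨
      ∃ t p, GoodAt (m a) (D a) t p ∧ ThreeIndependent (P a p t i)) (K : ℕ) :
    AlmostAllTuples fun t : A → Pt => (∀ a, InU (D a) (t a)) ∧
      ∀ (ℓ : ℕ) [Fact ℓ.Prime] (W : Type) [AddCommGroup W] [Module ℚ_[ℓ] W]
        [FiniteDimensional ℚ_[ℓ] W] (σ : Representation ℚ_[ℓ] Gal(AlgebraicClosure ℚ/ℚ) W),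
        QuasiUnipotent σ → (∀ a i, SmallOutside σ (n a i - 1) K) →
        TateClassesAreProducts (ι := Σ a, ι a) (fun x => (R x.1 (t x.1)).ρ ℓ x.2)
          (fun x => (R x.1 (t x.1)).ω ℓ x.2) (fun x => w x.1) σ (cyc ℓ) := by
  classical
  have h0 : ∀ a, AlmostAllTuples fun t : A → Pt => InU (D a) (t a) := by
    intro a
    obtain ⟨t₀, ht₀⟩ := (h a).nonempty
    exact hT1 A a _ (almostAll_inU hSV hDV (h a).pos (h a).form ht₀)
  have h1 : ∀ x : Σ a, ι a, AlmostAllTuples fun t : A → Pt => ∃ F : Finset ℕ, K + 2 ≤ F.card ∧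
      ∀ p ∈ F, p.Prime ∧ (∀ b, ¬ p ∣ m b) ∧ (p : ℤ) ∣ (t x.1).val (C x.1 x.2) ∧
        ∀ b, b ≠ x.1 → GoodAt (m b) (D b) (t b) p := fun x =>
    sieve_cusp hSV hDV hT3 h x.1 (hC x.1 x.2).1 (K + 2)
  have h2 : ∀ x : Σ a, ι a, AlmostAllTuples fun t : A → Pt => 4 ≤ n x.1 x.2 →
      (SmallCusp (R x.1) (m x.1) (D x.1) (C' x.1 x.2) x.2 ∧ ∃ F : Finset ℕ, 2 ≤ F.card ∧
        ∀ p ∈ F, p.Prime ∧ (∀ b, ¬ p ∣ m b) ∧ (p : ℤ) ∣ (t x.1).val (C' x.1 x.2) ∧
        ∀ b, b ≠ x.1 → GoodAt (m b) (D b) (t b) p) ∨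
      ∃ F : Finset ℕ, 2 ≤ F.card ∧ ∀ p ∈ F, GoodAt (m x.1) (D x.1) (t x.1) p ∧
        ThreeIndependent (P x.1 p (t x.1) x.2) := by
    rintro ⟨a, i⟩
    by_cases hi : 4 ≤ n a i
    · rcases hC' a i hi with hsm | ⟨t₁, p₁, hg, h3⟩
      · refine tuples_mono (sieve_cusp hSV hDV hT3 h a hsm.1 2) ?_
        exact fun t hF _ => Or.inl ⟨hsm, hF⟩
      · have h4 := sieve_point hSV hDV ((h a).three hg h3) (fun p hp => hp.1.1) t₁ 2
        refine tuples_mono (hT1 A a _ h4) ?_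
        rintro t ⟨F, hF, hFp⟩ -
        refine Or.inr ⟨F, hF, fun p hp => ?_⟩
        obtain ⟨⟨hgp, h3p⟩, hc⟩ := hFp p hp
        have hgt := good_of_cong (h a).form hgp hc
        refine ⟨hgt, ?_⟩
        show ThreeIndependent (P a p (t a) i)
        rw [(h a).reduction p (t a) t₁ hgt hgp hc]
        exact h3p
    · exact tuples_mono (h0 a) fun t _ hi' => absurd hi' hi
  refine tuples_mono (hT2 A _ _ (tuples_forall hT2 h0) (hT2 A _ _ (tuples_forall hT2 h1)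
    (tuples_forall hT2 h2))) ?_
  rintro t ⟨ht, ht1, ht2⟩
  refine ⟨ht, fun ℓ hℓ W _ _ _ σ hqu hsm => explicit h hn C C' hC t ht σ hqu (fun a i => ?_)
    fun a i hi => ?_⟩
  · obtain ⟨F, hF, hFp⟩ := ht1 ⟨a, i⟩
    obtain ⟨p, hp, hpℓ, hpB⟩ := exists_outside hF ℓ (hsm a i)
    obtain ⟨hpp, hpm, hdiv, hgood⟩ := hFp p hp
    refine ⟨p, hpp, hpℓ, hpm a, hdiv, hgood, ?_⟩
    by_contra hcon
    exact hpB ⟨hpp, hpℓ, hcon⟩
  · rcases ht2 ⟨a, i⟩ hi with ⟨hs, F, hF, hFp⟩ | ⟨F, hF, hFp⟩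
    · obtain ⟨p, hp, hne⟩ := exists_ne hF ℓ
      obtain ⟨hpp, hpm, hdiv, hgood⟩ := hFp p hp
      exact Or.inl ⟨hs, p, hpp, hne, hpm a, hdiv, hgood⟩
    · obtain ⟨p, hp, hne⟩ := exists_ne hF ℓ
      exact Or.inr ⟨p, hne, hFp p hp⟩

end Pool.Agent.N978.TP
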